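import Mathlib

set_option autoImplicit false

namespace Pool.Agent.SC4

/-- `G` contains no 4-cycle: two distinct vertices have at most one common neighbour. -/
def C4Free {V : Type*} (G : SimpleGraph V) : Prop :=
  ∀ u v w z : V, u ≠ v → G.Adj u w → G.Adj v w → G.Adj u z → G.Adj v z → w = z

/-- The graph of the pairs of distinct vertices without common neighbour in `G`. -/
def far {V : Type*} (G : SimpleGraph V) : SimpleGraph V where
  Adj u v := u ≠ v ∧ ∀ w, ¬ (G.Adj u w ∧ G.Adj v w)
  symm := ⟨fun _ _ h => ⟨h.1.symm, fun w hw => h.2 w ⟨hw.2, hw.1⟩⟩⟩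
  loopless := ⟨fun _ h => h.1 rfl⟩

/-- The all ones matrix. -/
def J (V R : Type*) [One R] : Matrix V V R := Matrix.of fun _ _ => 1

/-- Every graph on `N` vertices contains a 4-cycle or its complement contains the star `K_{1,n}`,
i.e. `R(C₄, K_{1,n}) ≤ N`. -/
def RamseyLE (n N : ℕ) : Prop :=
  ∀ G : SimpleGraph (Fin N), (SimpleGraph.cycleGraph 4).IsContained G ∨
    (completeBipartiteGraph (Fin 1) (Fin n)).IsContained Gᶜ

end Pool.Agent.SC4
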