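import Mathlib
import Pool.Agent.Work.MP_2d1b31_co.Defs

set_option autoImplicit false

/-
MODULE Base (size S-M). Translations between Mathlib containments and `C4Free`, degrees.
(1) If a 4-cycle is contained in `G` (a copy `f : Fin 4 → V` of `cycleGraph 4`, injective, preserving
adjacency: `cycleGraph 4` has edges 0-1, 1-2, 2-3, 3-0, decidable), then `u = f 0`, `v = f 2`,
`w = f 1`, `z = f 3` violates `C4Free`. Conversely if `C4Free` fails with u, v, w, z (u ≠ v, w ≠ z,
u ~ w ~ v ~ z ~ u; so all four are distinct), the map ![u, w, v, z] is a copy.
(2) A copy of `completeBipartiteGraph (Fin 1) (Fin n)` in `Gᶜ` is a vertex `v` and an injective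
family of `n` vertices different from `v` and not adjacent to `v` in `G`; such a family exists iff
`n ≤ |V| - 1 - deg v` (degree of `v` in `Gᶜ`, `SimpleGraph.degree_compl`).
-/

namespace Pool.Agent.SC4

theorem c4_iff {V : Type*} (G : SimpleGraph V) :
    (SimpleGraph.cycleGraph 4).IsContained G ↔ ¬ C4Free G := by
  constructor
  · rintro ⟨f⟩ hf
    have hadj : ∀ a b : Fin 4, (SimpleGraph.cycleGraph 4).Adj a b → G.Adj (f a) (f b) :=
      fun a b h => f.toHom.map_adj h
    have hinj : Function.Injective f := f.injective
    have h01 := hadj 0 1 (by decide)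
    have h21 := hadj 2 1 (by decide)
    have h03 := hadj 0 3 (by decide)
    have h23 := hadj 2 3 (by decide)
    have h02 : f 0 ≠ f 2 := fun h => absurd (hinj h) (by decide)
    have h13 := hf (f 0) (f 2) (f 1) (f 3) h02 h01 h21 h03 h23
    exact absurd (hinj h13) (by decide)
  · intro h
    unfold C4Free at h
    push Not at h
    obtain ⟨u, v, w, z, huv, huw, hvw, huz, hvz, hwz⟩ := h
    have e1 : u ≠ w := huw.ne
    have e2 : v ≠ w := hvw.ne
    have e3 : u ≠ z := huz.ne
    have e4 : v ≠ z := hvz.ne
    refine ⟨⟨⟨![u, w, v, z], ?_⟩, ?_⟩⟩
    · intro a b hab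
      fin_cases a <;> fin_cases b <;>
        first
        | (exfalso; revert hab; decide)
        | simpa using huw
        | simpa using huw.symm
        | simpa using hvw
        | simpa using hvw.symm
        | simpa using huz
        | simpa using huz.symm
        | simpa using hvz
        | simpa using hvz.symm
    · intro a b hab
      fin_cases a <;> fin_cases b <;>
        first
        | rfl
        | (exfalso; revert hab; simp [e1, e2, e3, e4, huv, hwz, e1.symm, e2.symm, e3.symm, e4.symm,
            huv.symm, hwz.symm])

theorem star_iff {V : Type*} [Fintype V] [DecidableEq V] (G : SimpleGraph V) [DecidableRel G.Adj]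
    (n : ℕ) :
    (completeBipartiteGraph (Fin 1) (Fin n)).IsContained Gᶜ ↔
      ∃ v, G.degree v + n + 1 ≤ Fintype.card V := by
  have hdeg : ∀ v, Gᶜ.degree v + 1 + G.degree v = Fintype.card V := by
    intro v
    have h1 := G.degree_compl v
    have h2 := G.degree_lt_card_verts v
    omega
  constructor
  · rintro ⟨f⟩
    refine ⟨f (Sum.inl 0), ?_⟩
    have h1 : n ≤ Gᶜ.degree (f (Sum.inl 0)) := by
      have hc : Fintype.card (Fin n) ≤ (Gᶜ.neighborFinset (f (Sum.inl 0))).card := by
        rw [← Finset.card_univ]
        apply Finset.card_le_card_of_injOn (fun i => f (Sum.inr i))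
        · intro i _
          simp only [Finset.mem_coe, SimpleGraph.mem_neighborFinset]
          exact f.toHom.map_adj (by simp)
        · intro i _ j _ hij
          have := f.injective hij
          simpa using this
      simpa using hc
    have := hdeg (f (Sum.inl 0))
    omega
  · rintro ⟨v, hv⟩
    have h1 : n ≤ (Gᶜ.neighborFinset v).card := by
      have := hdeg v
      rw [SimpleGraph.card_neighborFinset_eq_degree]
      omega
    obtain ⟨S, hS, hSc⟩ := Finset.exists_subset_card_eq h1
    let e := (S.equivFinOfCardEq hSc).symm
    have hadj : ∀ i, Gᶜ.Adj v (e i) := by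
      intro i
      have := hS (e i).2
      simpa only [SimpleGraph.mem_neighborFinset] using this
    refine ⟨⟨⟨Sum.elim (fun _ => v) (fun i => (e i : V)), ?_⟩, ?_⟩⟩
    · intro a b hab
      rcases a with a | a <;> rcases b with b | b
      · simp at hab
      · exact hadj b
      · exact (hadj a).symm
      · simp at hab
    · intro a b hab
      rcases a with a | a <;> rcases b with b | b
      · simp [Subsingleton.elim a b]
      · exact absurd hab (hadj b).ne
      · exact absurd hab.symm (hadj a).ne
      · have h2 : (e a : V) = e b := hab
        have := e.injective (Subtype.ext h2)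
        rw [this]

end Pool.Agent.SC4
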