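import Mathlib

set_option autoImplicit false

/-
MODULE Eig (size S-M). A symmetric rational matrix `M`, `P` its characteristic polynomial.
Over ℝ the matrix is Hermitian: `Matrix.IsHermitian` of `M.map (algebraMap ℚ ℝ)`, its characteristic
polynomial is `P.map` (`Matrix.charpoly_map`), it splits (`Matrix.IsHermitian.splits_charpoly`), the
roots are the eigenvalues (`Matrix.IsHermitian.roots_charpoly_eq_eigenvalues`), the trace is the sum
of the eigenvalues, and for the cube use the spectral theorem `M = U diag(λ) U*`, so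
`M³ = U diag(λ³) U*` and `trace M³ = sum λ³`. Every root has an eigenvector.
-/

namespace Pool.Agent.SC4

open Polynomial in
theorem eig_all {V : Type*} [Fintype V] [DecidableEq V] (M : Matrix V V ℚ) (hM : M.IsSymm) :
    (M.charpoly.map (algebraMap ℚ ℝ)).Splits ∧
    (M.charpoly.map (algebraMap ℚ ℝ)).roots.sum = (M.map (algebraMap ℚ ℝ)).trace ∧
    ((M.charpoly.map (algebraMap ℚ ℝ)).roots.map (fun α => α ^ 3)).sum
      = ((M.map (algebraMap ℚ ℝ)) ^ 3).trace ∧
    ∀ α ∈ (M.charpoly.map (algebraMap ℚ ℝ)).roots, ∃ x : V → ℝ, x ≠ 0 ∧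
      (M.map (algebraMap ℚ ℝ)).mulVec x = α • x := by
  set A : Matrix V V ℝ := M.map (algebraMap ℚ ℝ) with hAdef
  have hA : A.IsHermitian := by
    rw [Matrix.IsHermitian, Matrix.conjTranspose_eq_transpose_of_trivial]
    ext i j
    simp only [hAdef, Matrix.transpose_apply, Matrix.map_apply]
    rw [hM.apply i j]
  have hchar : M.charpoly.map (algebraMap ℚ ℝ) = A.charpoly := (Matrix.charpoly_map M _).symm
  rw [hchar]
  have hroots : A.charpoly.roots = Multiset.map hA.eigenvalues Finset.univ.val := by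
    rw [hA.roots_charpoly_eq_eigenvalues]
    congr 1
  refine ⟨hA.splits_charpoly, ?_, ?_, ?_⟩
  · rw [hroots, hA.trace_eq_sum_eigenvalues]
    rfl
  · rw [hroots, Multiset.map_map]
    have h1 : A ^ 3 = Unitary.conjStarAlgAut ℝ _ hA.eigenvectorUnitary
        (Matrix.diagonal (hA.eigenvalues) ^ 3) := by
      rw [map_pow]
      congr 1
      exact hA.spectral_theorem
    have h2 : (A ^ 3).trace = (Matrix.diagonal (hA.eigenvalues) ^ 3).trace := by
      rw [h1, Unitary.conjStarAlgAut_apply, Matrix.trace_mul_comm, ← mul_assoc]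
      simp
    rw [h2, Matrix.diagonal_pow, Matrix.trace_diagonal]
    rfl
  · intro α hα
    rw [hroots, Multiset.mem_map] at hα
    obtain ⟨i, _, rfl⟩ := hα
    exact ⟨hA.eigenvectorBasis i, (WithLp.ofLp_eq_zero 2).ne.2 <| hA.eigenvectorBasis.orthonormal.ne_zero i,
      hA.mulVec_eigenvectorBasis i⟩

end Pool.Agent.SC4
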