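import Mathlib
import Pool.Agent.Work.MP_2d1b31_co.Defs

set_option autoImplicit false

/-
MODULE MatId (size M). Matrix identities for a `k`-regular graph without 4-cycle.
(1) Entry (u,v) of `A²` is the number of common neighbours (`SimpleGraph.adjMatrix_mul_apply` or
`Matrix.mul_apply`): `k` for `u = v`; for `u ≠ v` it is 1 if there is a common neighbour (unique by
`C4Free`) and 0 if not, i.e. `1 - D u v`.
(2) `A` commutes with `A²`, with `1`, and with `J` (both products are `k J` by regularity), so with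
`D = J + (k-1) 1 - A²`.
(3) `A J = J A = k J`, `J² = |V| J`.
(4) trace of `A³ = A A² = A J + (k-1) A - A D`; `trace (A J) = k |V|`, `trace A = 0`,
`trace (A D) = sum_v |N(v) ∩ D(v)|`.
(5) `A' = A - c J` with `c = k/|V|`: `A'³ = A³ - (k³/|V|) J`, so `trace A'³ = trace A³ - k³`,
`trace A' = - k`.
-/

namespace Pool.Agent.SC4

variable {V : Type*} [Fintype V] [DecidableEq V] (G : SimpleGraph V) [DecidableRel G.Adj]
  [DecidableRel (far G).Adj] (k : ℕ)

private theorem A_mul_J (R : Type*) [CommRing R] (hk : ∀ v, G.degree v = k) :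
    G.adjMatrix R * J V R = (k : R) • J V R := by
  ext u w
  rw [SimpleGraph.adjMatrix_mul_apply, Matrix.smul_apply]
  simp [J, hk]

private theorem J_mul_A (R : Type*) [CommRing R] (hk : ∀ v, G.degree v = k) :
    J V R * G.adjMatrix R = (k : R) • J V R := by
  ext u w
  rw [SimpleGraph.mul_adjMatrix_apply, Matrix.smul_apply]
  simp [J, hk]

private theorem tr_J : (J V ℝ).trace = Fintype.card V := by
  simp [Matrix.trace, J, Matrix.diag]

theorem adj_sq (R : Type*) [CommRing R] (hG : C4Free G) (hk : ∀ v, G.degree v = k) :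
    G.adjMatrix R * G.adjMatrix R = J V R + ((k : R) - 1) • (1 : Matrix V V R)
      - (far G).adjMatrix R := by
  ext u w
  rw [Matrix.mul_apply]
  have e1 : ∀ x, G.adjMatrix R u x * G.adjMatrix R x w =
      if G.Adj u x ∧ G.Adj w x then 1 else 0 := by
    intro x
    rw [SimpleGraph.adjMatrix_apply, SimpleGraph.adjMatrix_apply]
    by_cases h1 : G.Adj u x <;> by_cases h2 : G.Adj w x <;>
      simp [h1, h2, G.adj_comm x w]
  rw [Finset.sum_congr rfl fun x _ => e1 x, Finset.sum_boole]
  rw [Matrix.sub_apply, Matrix.add_apply, Matrix.smul_apply, SimpleGraph.adjMatrix_apply]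
  have eJ : J V R u w = 1 := rfl
  rw [eJ]
  by_cases huw : u = w
  · subst huw
    have e2 : Finset.univ.filter (fun x => G.Adj u x ∧ G.Adj u x) = G.neighborFinset u := by
      ext x
      simp
    rw [e2, SimpleGraph.card_neighborFinset_eq_degree, hk, Matrix.one_apply_eq,
      if_neg ((far G).loopless.irrefl u)]
    simp
  · rw [Matrix.one_apply_ne huw, smul_zero, add_zero]
    by_cases hex : ∃ x, G.Adj u x ∧ G.Adj w x
    · obtain ⟨x, hx⟩ := hex
      have e2 : Finset.univ.filter (fun y => G.Adj u y ∧ G.Adj w y) = {x} := by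
        ext y
        simp only [Finset.mem_filter, Finset.mem_univ, true_and, Finset.mem_singleton]
        constructor
        · intro hy
          exact hG u w y x huw hy.1 hy.2 hx.1 hx.2
        · rintro rfl
          exact hx
      have e3 : ¬ (far G).Adj u w := fun h => h.2 x hx
      rw [e2, if_neg e3]
      simp
    · have e2 : Finset.univ.filter (fun y => G.Adj u y ∧ G.Adj w y) = ∅ := by
        ext y
        simp only [Finset.mem_filter, Finset.mem_univ, true_and, Finset.notMem_empty, iff_false]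
        exact fun hy => hex ⟨y, hy⟩
      have e3 : (far G).Adj u w := ⟨huw, fun x hx => hex ⟨x, hx⟩⟩
      rw [e2, if_pos e3]
      simp

theorem adj_comm (R : Type*) [CommRing R] (hG : C4Free G) (hk : ∀ v, G.degree v = k) :
    G.adjMatrix R * (far G).adjMatrix R = (far G).adjMatrix R * G.adjMatrix R := by
  have h := adj_sq G k R hG hk
  have h1 : (far G).adjMatrix R = J V R + ((k : R) - 1) • (1 : Matrix V V R)
      - G.adjMatrix R * G.adjMatrix R := by
    rw [h]
    abel
  rw [h1, Matrix.mul_sub, Matrix.sub_mul, Matrix.mul_add, Matrix.add_mul, A_mul_J G k R hk,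
    J_mul_A G k R hk, Matrix.mul_smul, Matrix.smul_mul, Matrix.mul_one, Matrix.one_mul,
    Matrix.mul_assoc]

theorem adj_mul_J (R : Type*) [CommRing R] (hk : ∀ v, G.degree v = k) :
    G.adjMatrix R * J V R = (k : R) • J V R := by
  exact A_mul_J G k R hk

theorem J_mul_adj (R : Type*) [CommRing R] (hk : ∀ v, G.degree v = k) :
    J V R * G.adjMatrix R = (k : R) • J V R := by
  exact J_mul_A G k R hk

theorem J_mul_J (R : Type*) [CommRing R] : J V R * J V R = (Fintype.card V : R) • J V R := by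
  ext u w
  rw [Matrix.mul_apply, Matrix.smul_apply]
  simp [J]

/-- trace of `A³` -/
theorem trace_cube (hG : C4Free G) (hk : ∀ v, G.degree v = k) :
    ((G.adjMatrix ℝ) ^ 3).trace = (k : ℝ) * Fintype.card V
      - ∑ v, ((G.neighborFinset v ∩ (far G).neighborFinset v).card : ℝ) := by
  have h1 : (G.adjMatrix ℝ) ^ 3 = (k : ℝ) • J V ℝ + ((k : ℝ) - 1) • G.adjMatrix ℝ
      - G.adjMatrix ℝ * (far G).adjMatrix ℝ := by
    rw [pow_succ', pow_two, adj_sq G k ℝ hG hk, Matrix.mul_sub, Matrix.mul_add,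
      adj_mul_J G k ℝ hk, Matrix.mul_smul, Matrix.mul_one]
  have h2 : (G.adjMatrix ℝ * (far G).adjMatrix ℝ).trace =
      ∑ v, ((G.neighborFinset v ∩ (far G).neighborFinset v).card : ℝ) := by
    unfold Matrix.trace
    refine Finset.sum_congr rfl fun v _ => ?_
    rw [Matrix.diag_apply, Matrix.mul_apply]
    have e1 : ∀ x, G.adjMatrix ℝ v x * (far G).adjMatrix ℝ x v =
        if x ∈ G.neighborFinset v ∩ (far G).neighborFinset v then 1 else 0 := by
      intro x
      rw [SimpleGraph.adjMatrix_apply, SimpleGraph.adjMatrix_apply]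
      simp only [Finset.mem_inter, SimpleGraph.mem_neighborFinset]
      by_cases h1 : G.Adj v x <;> by_cases h2 : (far G).Adj v x <;>
        simp [h1, h2, (far G).adj_comm x v]
    rw [Finset.sum_congr rfl fun x _ => e1 x, Finset.sum_boole]
    congr 2
    ext x
    simp
  rw [h1, Matrix.trace_sub, Matrix.trace_add, Matrix.trace_smul, Matrix.trace_smul, h2,
    SimpleGraph.trace_adjMatrix, tr_J]
  simp

theorem trace_defl [Nonempty V] (hk : ∀ v, G.degree v = k) :
    (G.adjMatrix ℝ - ((k : ℝ) / Fintype.card V) • J V ℝ).trace = -(k : ℝ) := by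
  have hV : (Fintype.card V : ℝ) ≠ 0 := by
    exact_mod_cast Fintype.card_ne_zero
  rw [Matrix.trace_sub, Matrix.trace_smul, SimpleGraph.trace_adjMatrix, tr_J, smul_eq_mul,
    div_mul_cancel₀ _ hV, zero_sub]

theorem trace_defl_cube [Nonempty V] (hk : ∀ v, G.degree v = k) :
    ((G.adjMatrix ℝ - ((k : ℝ) / Fintype.card V) • J V ℝ) ^ 3).trace
      = ((G.adjMatrix ℝ) ^ 3).trace - (k : ℝ) ^ 3 := by
  have hV : (Fintype.card V : ℝ) ≠ 0 := by
    exact_mod_cast Fintype.card_ne_zero
  set c : ℝ := (k : ℝ) / Fintype.card V with hc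
  have hcV : c * Fintype.card V = k := by rw [hc, div_mul_cancel₀ _ hV]
  have hA := adj_mul_J G k ℝ hk
  have hB := J_mul_adj G k ℝ hk
  have hJ := J_mul_J (V := V) ℝ
  have h1 : (G.adjMatrix ℝ - c • J V ℝ) ^ 3 = (G.adjMatrix ℝ) ^ 3 - (c * (k : ℝ) ^ 2) • J V ℝ := by
    have e1 : (G.adjMatrix ℝ - c • J V ℝ) * (G.adjMatrix ℝ - c • J V ℝ) =
        G.adjMatrix ℝ * G.adjMatrix ℝ - (c * k) • J V ℝ := by
      rw [Matrix.mul_sub, Matrix.sub_mul, Matrix.sub_mul, Matrix.smul_mul, Matrix.mul_smul,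
        Matrix.smul_mul, Matrix.mul_smul, hA, hB, hJ, smul_smul, smul_smul, smul_smul,
        mul_assoc c c, hcV]
      abel
    have e2 : (G.adjMatrix ℝ - c • J V ℝ) ^ 3 = (G.adjMatrix ℝ - c • J V ℝ) *
        ((G.adjMatrix ℝ - c • J V ℝ) * (G.adjMatrix ℝ - c • J V ℝ)) := by
      rw [pow_succ', pow_two]
    have e3 : (G.adjMatrix ℝ) ^ 3 = G.adjMatrix ℝ * (G.adjMatrix ℝ * G.adjMatrix ℝ) := by
      rw [pow_succ', pow_two]
    rw [e2, e1, e3, Matrix.sub_mul, Matrix.mul_sub, Matrix.mul_sub, Matrix.smul_mul,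
      Matrix.mul_smul, Matrix.smul_mul, Matrix.mul_smul, hA, hJ, ← Matrix.mul_assoc (J V ℝ),
      hB, Matrix.smul_mul, hB, smul_smul, smul_smul, smul_smul, smul_smul, smul_smul]
    have e4 : c * (c * ↑k) * ↑(Fintype.card V) = c * (k : ℝ) ^ 2 := by
      have : c * (c * ↑k) * ↑(Fintype.card V) = (c * ↑(Fintype.card V)) * (c * k) := by ring
      rw [this, hcV]
      ring
    have e6 : c * ↑k * ↑k = c * (k : ℝ) ^ 2 := by ring
    rw [e4, e6]
    abel
  rw [h1, Matrix.trace_sub, Matrix.trace_smul, tr_J, smul_eq_mul]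
  have e7 : c * (k : ℝ) ^ 2 * Fintype.card V = (k : ℝ) ^ 3 := by
    rw [mul_right_comm, hcV]
    ring
  rw [e7]

end Pool.Agent.SC4
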