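import Mathlib
import Pool.Agent.Work.MP_2d1b31_co.Defs
import Pool.Agent.Work.MP_2d1b31_co.MatId

set_option autoImplicit false

/-
MODULE EigA (size S-M). Eigenvectors of `A' = A - (k/|V|) J`.
Let `A' x = α x`, `x ≠ 0`. Multiply by the row vector of ones `1`: `1 A' = 0` (since
`1 A = k 1` and `1 J = |V| 1`), so `0 = α (sum x)`. If `sum x ≠ 0` then `α = 0`. Otherwise
`J x = 0`, so `A x = α x`, and `A² = J + (k-1) 1 - D` (`adj_sq`) gives
`α² x = (k-1) x - D x`.
-/

namespace Pool.Agent.SC4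

private theorem J_mulVec {V : Type*} [Fintype V] (x : V → ℝ) (v : V) :
    (J V ℝ).mulVec x v = ∑ w, x w := by
  simp [Matrix.mulVec, dotProduct, J]

private theorem sum_adj_mulVec {V : Type*} [Fintype V] [DecidableEq V] (G : SimpleGraph V)
    [DecidableRel G.Adj] [DecidableRel (far G).Adj] (k : ℕ) (hk : ∀ v, G.degree v = k)
    (x : V → ℝ) : ∑ v, (G.adjMatrix ℝ).mulVec x v = (k : ℝ) * ∑ w, x w := by
  have h1 : ∀ v, (J V ℝ * G.adjMatrix ℝ).mulVec x v = ∑ u, (G.adjMatrix ℝ).mulVec x u := by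
    intro v
    rw [← Matrix.mulVec_mulVec, J_mulVec]
  by_cases hV : Nonempty V
  · obtain ⟨v⟩ := hV
    rw [← h1 v, J_mul_adj G k ℝ hk, Matrix.smul_mulVec, Pi.smul_apply, J_mulVec, smul_eq_mul]
  · have : IsEmpty V := not_nonempty_iff.mp hV
    simp

theorem eig_defl {V : Type*} [Fintype V] [DecidableEq V] [Nonempty V] (G : SimpleGraph V)
    [DecidableRel G.Adj] [DecidableRel (far G).Adj] (k : ℕ) (hG : C4Free G)
    (hk : ∀ v, G.degree v = k) (α : ℝ) (x : V → ℝ) (hx : x ≠ 0)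
    (h : (G.adjMatrix ℝ - ((k : ℝ) / Fintype.card V) • J V ℝ).mulVec x = α • x) :
    α = 0 ∨ ((far G).adjMatrix ℝ).mulVec x = ((k : ℝ) - 1 - α ^ 2) • x := by
  have hcard : (Fintype.card V : ℝ) ≠ 0 := by
    exact_mod_cast Fintype.card_ne_zero
  have hv : ∀ v, (G.adjMatrix ℝ).mulVec x v - (k : ℝ) / Fintype.card V * ∑ w, x w = α * x v := by
    intro v
    have := congrFun h v
    rw [Matrix.sub_mulVec, Pi.sub_apply, Matrix.smul_mulVec, Pi.smul_apply, J_mulVec, Pi.smul_apply,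
      smul_eq_mul, smul_eq_mul] at this
    exact this
  have hsum : α * ∑ w, x w = 0 := by
    have h1 : ∑ v, ((G.adjMatrix ℝ).mulVec x v - (k : ℝ) / Fintype.card V * ∑ w, x w)
        = ∑ v, α * x v := Finset.sum_congr rfl fun v _ => hv v
    rw [Finset.sum_sub_distrib, sum_adj_mulVec G k hk, Finset.sum_const, Finset.card_univ,
      nsmul_eq_mul, ← Finset.mul_sum] at h1
    rw [← h1]
    field_simp
    ring
  rcases mul_eq_zero.mp hsum with h0 | h0
  · exact Or.inl h0
  · right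
    have hAx : (G.adjMatrix ℝ).mulVec x = α • x := by
      ext v
      have := hv v
      rw [h0, mul_zero, sub_zero] at this
      rw [Pi.smul_apply, smul_eq_mul]
      exact this
    have hA2 : (G.adjMatrix ℝ * G.adjMatrix ℝ).mulVec x = (α ^ 2) • x := by
      rw [← Matrix.mulVec_mulVec, hAx, Matrix.mulVec_smul, hAx, smul_smul, sq]
    rw [adj_sq G k ℝ hG hk, Matrix.sub_mulVec, Matrix.add_mulVec, Matrix.smul_mulVec,
      Matrix.one_mulVec] at hA2
    have hJ : (J V ℝ).mulVec x = 0 := by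
      ext v
      rw [J_mulVec, h0]
      rfl
    rw [hJ, zero_add] at hA2
    rw [sub_smul, ← hA2]
    abel

end Pool.Agent.SC4
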