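import Mathlib
import Pool.Agent.Work.MP_2d1b31_co.Defs

set_option autoImplicit false

/-
MODULE Clos (size S-M). Small closed sets in a 4-cycle free graph.
Fix a vertex `v`. Choose `S ⊆ N(v)` of size `t` which is closed under partner: for `u ∈ N(v)` call
`p(u)` the common neighbour of `u` and `v` if there is one (unique by `C4Free`; it lies in `N(v)`, and
`p(p(u)) = u`), and `p(u) = u` otherwise. Every EVEN `t ≤ deg v` is the size of some `S ⊆ N(v)` with
`p(S) ⊆ S`: induction on `t` in steps of two: if `S` is closed with `t + 2 ≤ deg v` then outside `S`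
there are at least two elements of `N(v)`; if some `u ∈ N(v) - S` has `p(u) ≠ u`, then `p(u) ∉ S`
and `S + u + p(u)` works; otherwise add two fixed points.
`R = S + v` has `t + 1` elements. Claim: a vertex `w ∉ R` has at most one neighbour in `R`:
 * if `w ~ v`, then `w ∈ N(v) - S`, and a neighbour `u ∈ S` of `w` would be a common neighbour of
   `w` and `v`... then `p(u) = w` so `w ∈ S`, contradiction. So `v` is the only neighbour in `R`.
 * if `w ≁ v`: two neighbours `u ≠ u'` in `S` would be two common neighbours of `w` and `v`.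
-/

namespace Pool.Agent.SC4

open Finset in
private theorem closed_aux {V : Type*} [Fintype V] [DecidableEq V] (G : SimpleGraph V)
    [DecidableRel G.Adj] (hG : C4Free G) (v : V) (s : ℕ) (hs : 2 * s ≤ G.degree v) :
    ∃ S : Finset V, S ⊆ G.neighborFinset v ∧ S.card = 2 * s ∧
      ∀ u ∈ S, ∀ w, G.Adj v w → G.Adj u w → w ∈ S := by
  induction s with
  | zero => exact ⟨∅, by simp, by simp, by simp⟩
  | succ s ih =>
    obtain ⟨S, hSN, hSc, hScl⟩ := ih (by omega)
    have hcard : 2 ≤ (G.neighborFinset v \ S).card := by
      rw [card_sdiff_of_subset hSN, hSc, SimpleGraph.card_neighborFinset_eq_degree]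
      omega
    by_cases hp : ∃ u ∈ G.neighborFinset v \ S, ∃ w, G.Adj v w ∧ G.Adj u w
    · obtain ⟨u, hu, w, hvw, huw⟩ := hp
      rw [mem_sdiff, SimpleGraph.mem_neighborFinset] at hu
      have hwS : w ∉ S := fun h => hu.2 (hScl w h u hu.1 huw.symm)
      have huw' : u ≠ w := huw.ne
      refine ⟨insert u (insert w S), ?_, ?_, ?_⟩
      · intro x hx
        simp only [mem_insert] at hx
        rcases hx with rfl | rfl | hx
        · simpa using hu.1
        · simpa using hvw
        · exact hSN hx
      · rw [card_insert_of_notMem (by simp [huw', hu.2]), card_insert_of_notMem hwS, hSc]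
        ring
      · intro x hx y hvy hxy
        simp only [mem_insert] at hx ⊢
        rcases hx with rfl | rfl | hx
        · right; left
          exact hG v x y w hu.1.ne hvy hxy hvw huw
        · left
          exact hG v x y u hvw.ne hvy hxy hu.1 huw.symm
        · right; right
          exact hScl x hx y hvy hxy
    · push Not at hp
      obtain ⟨P, hPN, hPc⟩ := exists_subset_card_eq hcard
      refine ⟨S ∪ P, ?_, ?_, ?_⟩
      · exact union_subset hSN (hPN.trans sdiff_subset)
      · rw [card_union_of_disjoint, hSc, hPc]
        · ring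
        · exact disjoint_left.mpr fun x hxS hxP => (mem_sdiff.mp (hPN hxP)).2 hxS
      · intro x hx y hvy hxy
        rw [mem_union] at hx ⊢
        rcases hx with hx | hx
        · left
          exact hScl x hx y hvy hxy
        · exact absurd hxy (hp x (hPN hx) y hvy)

open Finset in
theorem closed_set {V : Type*} [Fintype V] [DecidableEq V] (G : SimpleGraph V)
    [DecidableRel G.Adj] (hG : C4Free G) (v : V) (t : ℕ) (ht : Even t) (htv : t ≤ G.degree v) :
    ∃ R : Finset V, R.card = t + 1 ∧ ∀ w, w ∉ R → (G.neighborFinset w ∩ R).card ≤ 1 := by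
  obtain ⟨s, hs⟩ := ht
  obtain ⟨S, hSN, hSc, hScl⟩ := closed_aux G hG v s (by omega)
  have hvS : v ∉ S := fun h => by simpa using hSN h
  refine ⟨insert v S, ?_, ?_⟩
  · rw [card_insert_of_notMem hvS, hSc]
    omega
  · intro w hw
    rw [mem_insert, not_or] at hw
    rw [card_le_one]
    intro a ha b hb
    rw [mem_inter, SimpleGraph.mem_neighborFinset, mem_insert] at ha hb
    obtain ⟨hwa, ha⟩ := ha
    obtain ⟨hwb, hb⟩ := hb
    have key : ∀ x ∈ S, G.Adj w x → G.Adj w v → False := by
      intro x hx hwx hwv
      exact hw.2 (hScl x hx w hwv.symm hwx.symm)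
    rcases ha with rfl | ha <;> rcases hb with rfl | hb
    · rfl
    · exact (key b hb hwb hwa).elim
    · exact (key a ha hwa hwb).elim
    · have h1 : G.Adj v a := by simpa using hSN ha
      have h2 : G.Adj v b := by simpa using hSN hb
      exact hG w v a b hw.1 hwa h1 hwb h2

end Pool.Agent.SC4
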