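import Mathlib
import Pool.Agent.Work.MP_2d1b31_co.Defs
import Pool.Agent.Work.MP_2d1b31_co.Base
import Pool.Agent.Work.MP_2d1b31_co.Clos

set_option autoImplicit false

/-
MODULE Growth (size M). `f(n+t) ≤ f(n)+t+1` for even `t` at most `f(n)-n+1`.
Proof. Let `G` be a graph on `N+t+1` vertices without 4-cycle whose complement does not contain
`K_{1,n+t}`; by `star_iff` every vertex has `deg v + (n+t) + 1 > N+t+1`, i.e. `deg v + n ≥ N + 1`.
(All `Fin (N+t+1)` is nonempty.) Pick any `v`; `t ≤ N + 1 - n ≤ deg v`, so `closed_set` gives `R` of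
size `t+1`. The induced graph on the complement of `R` has `N` vertices (transport it to `Fin N`
with an equivalence), is `C4Free`, and every degree drops by at most 1, so `deg + n ≥ N` there; so it
contains no 4-cycle (`c4_iff`) and its complement no `K_{1,n}` (`star_iff`), contradicting
`RamseyLE n N`. (If `N + 1 < n` then `t = 0` in the hypothesis `t ≤ N + 1 - n`; the argument is the
same with truncated subtraction.)
-/

namespace Pool.Agent.SC4

theorem growth (n N t : ℕ) (ht : Even t) (htN : t ≤ N + 1 - n) (h : RamseyLE n N) :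
    RamseyLE (n + t) (N + t + 1) := by
  classical
  intro G
  by_contra hcon
  rw [not_or] at hcon
  obtain ⟨hc, hs⟩ := hcon
  have hG : C4Free G := by
    by_contra h1
    exact hc ((c4_iff G).2 h1)
  have hdeg : ∀ v, N + 1 ≤ G.degree v + n := by
    intro v
    by_contra h1
    refine hs ((star_iff G (n + t)).2 ⟨v, ?_⟩)
    rw [Fintype.card_fin]
    omega
  have h0 := hdeg 0
  obtain ⟨R, hR, hRw⟩ := closed_set G hG 0 t ht (by omega)
  have hcard : Fintype.card {w : Fin (N + t + 1) // w ∉ R} = N := by
    rw [Fintype.card_subtype_compl, Fintype.card_fin]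
    have : Fintype.card {x : Fin (N + t + 1) // x ∈ R} = R.card := Fintype.card_coe R
    rw [this, hR]
    omega
  let e : Fin N ≃ {w : Fin (N + t + 1) // w ∉ R} := (Fintype.equivFinOfCardEq hcard).symm
  have hinj : Function.Injective (fun i => (e i).val) := fun i j hij => e.injective (Subtype.ext hij)
  let G' : SimpleGraph (Fin N) := G.comap (fun i => (e i).val)
  have hadj : ∀ i j, G'.Adj i j ↔ G.Adj (e i).val (e j).val := fun i j => Iff.rfl
  rcases h G' with h1 | h1
  · refine (c4_iff G').1 h1 ?_
    intro u v w z huv h2 h3 h4 h5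
    exact hinj (hG (e u).val (e v).val (e w).val (e z).val (fun h6 => huv (hinj h6)) h2 h3 h4 h5)
  · obtain ⟨i, hi⟩ := (star_iff G' n).1 h1
    rw [Fintype.card_fin] at hi
    have h2 := hRw (e i).val (e i).property
    have h3 := hdeg (e i).val
    have h4 : (G.neighborFinset (e i).val \ R).card ≤ G'.degree i := by
      rw [← SimpleGraph.card_neighborFinset_eq_degree, ← Finset.card_image_of_injective _ hinj]
      refine Finset.card_le_card fun x hx => ?_
      rw [Finset.mem_sdiff, SimpleGraph.mem_neighborFinset] at hx
      refine Finset.mem_image.2 ⟨e.symm ⟨x, hx.2⟩, ?_, ?_⟩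
      · rw [SimpleGraph.mem_neighborFinset, hadj, Equiv.apply_symm_apply]
        exact hx.1
      · simp
    have h5 := Finset.card_sdiff_add_card_inter (G.neighborFinset (e i).val) R
    rw [SimpleGraph.card_neighborFinset_eq_degree] at h5
    omega

end Pool.Agent.SC4
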