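import Mathlib

set_option autoImplicit false

/-
MODULE Five (size S-M). `θ` real with `θ² + θ - 1 = 0`, `β` real in `ℚ[β²]`, `β² = x - θ`,
`x ≥ 2` an integer: impossible.
`ℚ[β²] = ℚ[θ] = {p + q θ}` (the set of `p + q θ`, `p q : ℚ`, is a subalgebra by `θ² = 1 - θ`, it
contains `β² = x - θ`). `β = p + q θ`: `x - θ = β² = (p² + q²) + (2 p q - q²) θ`; `θ` is irrational
(`θ² + θ - 1 = 0` has no rational root), so `p² + q² = x`, `2 p q - q² = -1`. With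
`n = p² - p q - q²`: `n² = (p²+q²)² - (p²+q²)(2pq-q²) - (2pq-q²)² = x² + x - 1`. The rational number
`n` has an integral square, so it is an integer, WLOG `n ≥ 0`;
`(2x+1-2n)(2x+1+2n) = (2x+1)² - 4 n² = 5`, so `2x + 1 + 2n = 5`, `2x + 1 - 2n = 1`, `x = 1`:
contradiction.
-/

namespace Pool.Agent.SC4

private theorem form (x : ℤ) (θ β : ℝ) (hθ : θ ^ 2 + θ - 1 = 0) (h : β ^ 2 = (x : ℝ) - θ)
    (y : ℝ) (hy : y ∈ Algebra.adjoin ℚ {β ^ 2}) : ∃ p q : ℚ, y = (p : ℝ) + q * θ := by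
  induction hy using Algebra.adjoin_induction with
  | mem y hy =>
    rw [Set.mem_singleton_iff] at hy
    refine ⟨x, -1, ?_⟩
    rw [hy, h]
    push_cast
    ring
  | algebraMap r =>
    refine ⟨r, 0, ?_⟩
    rw [eq_ratCast]
    push_cast
    ring
  | add a b _ _ ha hb =>
    obtain ⟨p, q, rfl⟩ := ha
    obtain ⟨p', q', rfl⟩ := hb
    refine ⟨p + p', q + q', ?_⟩
    push_cast
    ring
  | mul a b _ _ ha hb =>
    obtain ⟨p, q, rfl⟩ := ha
    obtain ⟨p', q', rfl⟩ := hb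
    refine ⟨p * p' + q * q', p * q' + q * p' - q * q', ?_⟩
    push_cast
    linear_combination (q : ℝ) * q' * hθ

private theorem indep (θ : ℝ) (hθ : θ ^ 2 + θ - 1 = 0) (A B : ℚ) (h : (A : ℝ) + B * θ = 0) :
    A = 0 ∧ B = 0 := by
  have hB : B = 0 := by
    by_contra hB
    have hB' : (B : ℝ) ≠ 0 := by exact_mod_cast hB
    have h1 : (A : ℝ) ^ 2 - A * B - B ^ 2 = 0 := by
      have h2 : (B : ℝ) ^ 2 * (θ ^ 2 + θ - 1) = 0 := by rw [hθ, mul_zero]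
      have h3 : (B : ℝ) * θ = -A := by linarith
      linear_combination h2 - ((B : ℝ) * θ - A) * h3 - (B : ℝ) * h3
    have h2 : A ^ 2 - A * B - B ^ 2 = 0 := by exact_mod_cast h1
    have h3 : IsSquare (5 : ℚ) := by
      refine ⟨2 * (A / B) - 1, ?_⟩
      field_simp
      linear_combination -4 * h2
    rw [Rat.isSquare_ofNat_iff] at h3
    obtain ⟨r, hr⟩ := h3
    have h4 : r < 3 := by nlinarith
    interval_cases r <;> omega
  refine ⟨?_, hB⟩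
  rw [hB, Rat.cast_zero, zero_mul, add_zero] at h
  exact_mod_cast h

theorem five (x : ℤ) (hx : 2 ≤ x) (θ β : ℝ) (hθ : θ ^ 2 + θ - 1 = 0) (h : β ^ 2 = (x : ℝ) - θ)
    (hβ : β ∈ Algebra.adjoin ℚ {β ^ 2}) : False := by
  obtain ⟨p, q, e⟩ := form x θ β hθ h β hβ
  have h1 : ((p ^ 2 + q ^ 2 - x : ℚ) : ℝ) + ((2 * p * q - q ^ 2 + 1 : ℚ) : ℝ) * θ = 0 := by
    rw [e] at h
    push_cast
    linear_combination h - (q : ℝ) ^ 2 * hθ
  obtain ⟨h2, h3⟩ := indep θ hθ _ _ h1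
  have h4 : (p ^ 2 - p * q - q ^ 2) * (p ^ 2 - p * q - q ^ 2) = ((x ^ 2 + x - 1 : ℤ) : ℚ) := by
    push_cast
    have h5 : (x : ℚ) = p ^ 2 + q ^ 2 := by linarith
    rw [h5]
    linear_combination (-(p ^ 2 + q ^ 2) - (2 * p * q - q ^ 2) + 1) * h3
  have h5 : IsSquare ((x ^ 2 + x - 1 : ℤ) : ℚ) := ⟨_, h4.symm⟩
  rw [Rat.isSquare_intCast_iff] at h5
  obtain ⟨m, hm⟩ := h5
  have h6 : x ^ 2 + x - 1 = |m| * |m| := by rw [abs_mul_abs_self, hm]
  have h7 : 0 ≤ |m| := abs_nonneg m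
  have h8 : x < |m| := by nlinarith
  nlinarith

end Pool.Agent.SC4
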