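import Mathlib

set_option autoImplicit false

/-
MODULE Fld (size S-M). `ζ ∈ ℂ` a primitive `e`-th root of unity.
(1) An element of `ℚ⟮ζ⟯` which is integral over `ℤ` is an integer polynomial in `ζ`:
 `K = ℚ⟮ζ⟯` is a cyclotomic extension (`IsPrimitiveRoot.intermediateField_adjoin_isCyclotomicExtension`
 or similar), and `IsCyclotomicExtension.Rat.isIntegralClosure_adjoin_singleton` (for all `n`, in
 Mathlib/NumberTheory/NumberField/Cyclotomic/Basic.lean) says that the integral closure of ℤ in `K`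
 is `Algebra.adjoin ℤ {ζ}`; then `Algebra.adjoin_singleton_eq_range_aeval`.
(2) An integer polynomial vanishing at `ζ` is divisible by `cyclotomic e ℤ`
 (`Polynomial.cyclotomic_eq_minpoly`, `minpoly.isIntegrallyClosed_dvd`).
-/

namespace Pool.Agent.SC4

open Polynomial IntermediateField in
theorem exists_poly (e : ℕ) (he : 0 < e) (ζ : ℂ) (hζ : IsPrimitiveRoot ζ e) (β : ℂ)
    (hβ : β ∈ IntermediateField.adjoin ℚ {ζ}) (hint : IsIntegral ℤ β) :
    ∃ r : ℤ[X], aeval ζ r = β := by
  have : NeZero e := ⟨he.ne'⟩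
  have hcyc : IsCyclotomicExtension {e} ℚ (IntermediateField.adjoin ℚ {ζ}) := by
    have halg : IsAlgebraic ℚ ζ := ((hζ.isIntegral he).tower_top (A := ℚ)).isAlgebraic
    change IsCyclotomicExtension {e} ℚ (IntermediateField.adjoin ℚ {ζ}).toSubalgebra
    rw [IntermediateField.adjoin_simple_toSubalgebra_of_isAlgebraic halg]
    exact hζ.adjoin_isCyclotomicExtension ℚ
  set z : IntermediateField.adjoin ℚ {ζ} :=
    ⟨ζ, IntermediateField.mem_adjoin_simple_self ℚ ζ⟩ with hz
  have hz' : IsPrimitiveRoot z e := by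
    refine IsPrimitiveRoot.of_map_of_injective (f := algebraMap (IntermediateField.adjoin ℚ {ζ}) ℂ) ?_
      (algebraMap (IntermediateField.adjoin ℚ {ζ}) ℂ).injective
    exact hζ
  have hcl := IsCyclotomicExtension.Rat.isIntegralClosure_adjoin_singleton hz'
  have hb : IsIntegral ℤ (⟨β, hβ⟩ : IntermediateField.adjoin ℚ {ζ}) := by
    rw [← isIntegral_algebraMap_iff (algebraMap (IntermediateField.adjoin ℚ {ζ}) ℂ).injective]
    exact hint
  obtain ⟨y, hy⟩ := hcl.isIntegral_iff.1 hb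
  have hy1 : (y : IntermediateField.adjoin ℚ {ζ}) ∈ (aeval (R := ℤ) z).range := by
    rw [← Algebra.adjoin_singleton_eq_range_aeval]
    exact y.2
  obtain ⟨r, hr⟩ := hy1
  refine ⟨r, ?_⟩
  have h1 : (aeval z) r = (⟨β, hβ⟩ : IntermediateField.adjoin ℚ {ζ}) := by
    rw [← hy]
    exact hr
  have h2 := congrArg (algebraMap (IntermediateField.adjoin ℚ {ζ}) ℂ) h1
  rw [← aeval_algebraMap_apply] at h2
  exact h2

open Polynomial in
theorem cyc_dvd (e : ℕ) (he : 0 < e) (ζ : ℂ) (hζ : IsPrimitiveRoot ζ e) (p : ℤ[X])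
    (hp : aeval ζ p = 0) : cyclotomic e ℤ ∣ p := by
  rw [cyclotomic_eq_minpoly hζ he]
  exact minpoly.isIntegrallyClosed_dvd (hζ.isIntegral he) hp

end Pool.Agent.SC4
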