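import Mathlib

set_option autoImplicit false

/-
MODULE PolyFour (size S-M). `4 ∣ e`, `x` odd, `Φ = cyclotomic e ℤ` divides
`X r² - (x X - X² - 1)`. Claim: `e = 4`.
Reduce mod 2 (`R = (ZMod 2)[X]`): `r² = expand 2 r` (`ZMod.expand_card`), `x = 1`, so `Φ` divides
`X * expand 2 (r + 1) + expand 2 (X + 1)`. And `Φ = cyclotomic e = expand 2 (cyclotomic (e/2))`
(`Polynomial.cyclotomic_expand_eq_cyclotomic` with `2 ∣ e/2`). General fact: if `expand 2 f` divides
`X * expand 2 a + expand 2 b` then `f ∣ a` and `f ∣ b` (write the quotient as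
`expand 2 q₀ + X * expand 2 q₁`, even and odd coefficients, and compare even and odd parts).
So `cyclotomic (e/2)` divides `X + 1` over `ZMod 2`: its degree `φ(e/2) ≤ 1`, so `e/2 ≤ 2`
(`e/2 = 1` or `2`; use `Nat.totient`), and `4 ∣ e`, `e > 0` gives `e = 4`.
(`e = 0` is excluded by hypothesis.)
-/

namespace Pool.Agent.SC4

open Polynomial in
theorem poly_four (e : ℕ) (he0 : 0 < e) (he : 4 ∣ e) (x : ℤ) (hx : Odd x) (r : ℤ[X])
    (h : cyclotomic e ℤ ∣ X * r ^ 2 - (C x * X - X ^ 2 - 1)) : e = 4 := by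
  obtain ⟨m, rfl⟩ := he
  have hm : 0 < m := by omega
  -- reduction modulo two
  have h1 := Polynomial.map_dvd (Int.castRingHom (ZMod 2)) h
  have hx1 : (Int.castRingHom (ZMod 2)) x = 1 := by
    obtain ⟨k, rfl⟩ := hx
    have h2 : (2 : ZMod 2) = 0 := rfl
    rw [map_add, map_mul, map_one, map_ofNat, h2, zero_mul, zero_add]
  set s : (ZMod 2)[X] := r.map (Int.castRingHom (ZMod 2)) with hs
  have h2 : (X * r ^ 2 - (C x * X - X ^ 2 - 1)).map (Int.castRingHom (ZMod 2)) =
      X * expand (ZMod 2) 2 (s + 1) + expand (ZMod 2) 2 (X + 1) := by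
    have e2 : (2 : (ZMod 2)[X]) = 0 := by
      have := CharTwo.two_eq_zero (R := (ZMod 2)[X])
      exact this
    have e3 : expand (ZMod 2) 2 s = s ^ 2 := ZMod.expand_card s
    simp only [Polynomial.map_sub, Polynomial.map_mul, Polynomial.map_pow, Polynomial.map_X,
      Polynomial.map_C, Polynomial.map_one, hx1, map_add, map_one, expand_X, e3, ← hs]
    linear_combination (-X : (ZMod 2)[X]) * e2
  rw [h2, map_cyclotomic] at h1
  have h3 : cyclotomic (4 * m) (ZMod 2) = expand (ZMod 2) 2 (cyclotomic (2 * m) (ZMod 2)) := by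
    rw [cyclotomic_expand_eq_cyclotomic Nat.prime_two (Dvd.intro m rfl)]
    congr 1
    ring
  rw [h3] at h1
  obtain ⟨Q, hQ⟩ := h1
  have h4 := congrArg (contract 2) hQ
  have h5 : contract 2 (expand (ZMod 2) 2 (cyclotomic (2 * m) (ZMod 2)) * Q) =
      contract 2 Q * cyclotomic (2 * m) (ZMod 2) := by
    rw [mul_comm, contract_mul_expand (by norm_num)]
  have h6 : contract 2 (X * expand (ZMod 2) 2 (s + 1) + expand (ZMod 2) 2 (X + 1)) = X + 1 := by
    rw [contract_add (by norm_num), contract_mul_expand (by norm_num), contract_expand (hp := by norm_num)]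
    have h7 : contract 2 (X : (ZMod 2)[X]) = 0 := by
      ext n
      rw [coeff_contract (by norm_num), coeff_X, coeff_zero, if_neg (by omega)]
    rw [h7, zero_mul, zero_add]
  rw [h5, h6] at h4
  have h8 : cyclotomic (2 * m) (ZMod 2) ∣ X + 1 := ⟨contract 2 Q, by rw [h4, mul_comm]⟩
  have h9 : (X + 1 : (ZMod 2)[X]).natDegree = 1 := by
    have := natDegree_X_add_C (1 : ZMod 2)
    rwa [C_1] at this
  have h10 : (X + 1 : (ZMod 2)[X]) ≠ 0 := by
    intro h0
    rw [h0] at h9
    simp at h9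
  have h11 := natDegree_le_of_dvd h8 h10
  rw [h9, natDegree_cyclotomic] at h11
  have h12 : 0 < Nat.totient (2 * m) := Nat.totient_pos.2 (by omega)
  have h13 : Nat.totient (2 * m) = 1 := by omega
  rw [Nat.totient_eq_one_iff] at h13
  omega

end Pool.Agent.SC4
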