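import Mathlib

set_option autoImplicit false

/-
MODULE PolyOdd (size M). `e` odd, `Φ = cyclotomic e ℤ`, `x` an odd integer.
Hypothesis (a 'square root of x - ζ - ζ⁻¹' with ζ = ξ², ξ the class of X): Φ divides
`X² r² - (x X² - X⁴ - 1)`. Claim: `e ∣ 3` or `e ∣ 5`.
Let `Q = X² + x X + 1`, `s = X r - Q`.
(1) mod Φ: `s² ≡ (x X² - X⁴ - 1) - 2 X r Q + Q²` and
 `Q² = X⁴ + 2x X³ + (x²+2) X² + 2x X + 1`, so `s² ≡ 2x X³ + (x²+x+2) X² + 2x X - 2 X r Q`, which is
 `2 * (polynomial)` because `x² + x` is even. So Φ ∣ s² - 2 p.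
(2) Over `ZMod 2`: `Φ.map` divides `(s.map)²`, and `Φ.map = cyclotomic e (ZMod 2)` is squarefree
 (`X^e - 1` is separable over `ZMod 2`, `e` odd; `Polynomial.separable_X_pow_sub_C`/
 `X_pow_sub_one_separable_iff`, `cyclotomic.dvd_X_pow_sub_one`), so `Φ.map ∣ s.map`
 (`UniqueFactorizationMonoid.dvd_pow_iff_dvd_of_squarefree`). Lift: `s = Φ q + 2 g` for some
 integer polynomials `q, g` (map `ℤ[X] → (ZMod 2)[X]` is surjective, its kernel is `2 ℤ[X]`).
(3) `X r ≡ Q + 2 g` mod Φ, so `x X² - X⁴ - 1 ≡ Q² + 4 (g Q + g²)` mod Φ, i.e.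
 `Q² + X⁴ + 1 - x X² = 2 (X⁴ + x X³ + c X² + x X + 1)` with `2 c = x² - x + 2` is
 `≡ 4 (...)` mod Φ: `2 h + 4 h' = Φ w`. Then `w` is divisible by 2 (Φ is monic, so its image mod 2
 is a nonzero polynomial over the field ZMod 2): `h + 2 h' = Φ w'`,
 `h = X⁴ + x X³ + c X² + x X + 1`.
(4) Let `F` be an algebraic closure of `ZMod 2` (`AlgebraicClosure (ZMod 2)`), `ω ∈ F` a primitive
 `e`-th root of unity (exists because `(e : F) ≠ 0`; it is a root of `cyclotomic e F`). Evaluate: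
 `ω⁴ + ω³ + c ω² + ω + 1 = 0` in `F` (x odd). If `c` is even: `(ω + 1)(ω³ + 1) = 0`, so `ω³ = 1`
 (also if ω = 1) and `e ∣ 3`; if `c` is odd: `ω⁵ - 1 = (ω - 1)(ω⁴+ω³+ω²+ω+1) = 0`, so `e ∣ 5`.
-/

namespace Pool.Agent.SC4

open Polynomial in
private theorem po_two_dvd {p : ℤ[X]} (h : p.map (Int.castRingHom (ZMod 2)) = 0) :
    ∃ g : ℤ[X], p = C 2 * g := by
  have h1 : C (2 : ℤ) ∣ p := by
    rw [C_dvd_iff_dvd_coeff]
    intro i
    have h2 := congrArg (fun q => q.coeff i) h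
    simp only [coeff_map, coeff_zero, eq_intCast] at h2
    exact (ZMod.intCast_zmod_eq_zero_iff_dvd _ 2).1 h2
  exact h1

open Polynomial in
private theorem po_neZero {e : ℕ} (he : Odd e) (K : Type) [Field K] [CharP K 2] :
    NeZero (e : K) := by
  refine ⟨fun h => ?_⟩
  rw [CharP.cast_eq_zero_iff K 2] at h
  exact (Nat.not_even_iff_odd.2 he) (even_iff_two_dvd.2 h)

open Polynomial in
private theorem po_lift {e : ℕ} (he : Odd e) {s p : ℤ[X]} (h : cyclotomic e ℤ ∣ s ^ 2 - C 2 * p) :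
    ∃ q g : ℤ[X], s = cyclotomic e ℤ * q + C 2 * g := by
  have := po_neZero he (ZMod 2)
  have h1 := Polynomial.map_dvd (Int.castRingHom (ZMod 2)) h
  have h20 : (C 2 : ℤ[X]).map (Int.castRingHom (ZMod 2)) = 0 := by
    rw [map_C]
    have : (Int.castRingHom (ZMod 2)) 2 = 0 := by decide
    rw [this, C_0]
  rw [Polynomial.map_sub, Polynomial.map_mul, h20, zero_mul, sub_zero, Polynomial.map_pow,
    map_cyclotomic_int] at h1
  have h2 : cyclotomic e (ZMod 2) ∣ s.map (Int.castRingHom (ZMod 2)) :=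
    ((squarefree_cyclotomic e (ZMod 2)).dvd_pow_iff_dvd two_ne_zero).1 h1
  obtain ⟨q', hq'⟩ := h2
  obtain ⟨q, rfl⟩ := Polynomial.map_surjective (Int.castRingHom (ZMod 2))
    (ZMod.ringHom_surjective _) q'
  obtain ⟨g, hg⟩ := po_two_dvd (p := s - cyclotomic e ℤ * q) (by
    rw [Polynomial.map_sub, Polynomial.map_mul, map_cyclotomic_int, hq', sub_self])
  exact ⟨q, g, by rw [← hg]; ring⟩

open Polynomial in
private theorem po_half {e : ℕ} {h w : ℤ[X]} (hw : C 2 * h = cyclotomic e ℤ * w) :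
    ∃ w' : ℤ[X], h = cyclotomic e ℤ * w' := by
  have h20 : (C 2 : ℤ[X]).map (Int.castRingHom (ZMod 2)) = 0 := by
    rw [map_C]
    have : (Int.castRingHom (ZMod 2)) 2 = 0 := by decide
    rw [this, C_0]
  have h1 := congrArg (fun p => p.map (Int.castRingHom (ZMod 2))) hw
  simp only [Polynomial.map_mul, h20, zero_mul, map_cyclotomic_int] at h1
  have h2 : w.map (Int.castRingHom (ZMod 2)) = 0 := by
    rcases mul_eq_zero.1 h1.symm with h3 | h3
    · exact absurd h3 (cyclotomic_ne_zero e (ZMod 2))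
    · exact h3
  obtain ⟨w', rfl⟩ := po_two_dvd h2
  refine ⟨w', ?_⟩
  have h3 : (C 2 : ℤ[X]) ≠ 0 := by
    rw [Ne, C_eq_zero]
    exact two_ne_zero
  apply mul_left_cancel₀ h3
  rw [hw]
  ring

open Polynomial in
private theorem po_root {e : ℕ} (he : Odd e) : ∃ ω : AlgebraicClosure (ZMod 2),
    IsPrimitiveRoot ω e ∧
      Polynomial.eval₂RingHom (Int.castRingHom (AlgebraicClosure (ZMod 2))) ω (cyclotomic e ℤ) = 0 := by
  have hc : CharP (AlgebraicClosure (ZMod 2)) 2 := inferInstance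
  have := po_neZero he (AlgebraicClosure (ZMod 2))
  have hpos : 0 < e := he.pos
  obtain ⟨ω, hω⟩ := IsAlgClosed.exists_root (cyclotomic e (AlgebraicClosure (ZMod 2)))
    (degree_cyclotomic_pos e _ hpos).ne'
  refine ⟨ω, (isRoot_cyclotomic_iff).1 hω, ?_⟩
  rw [coe_eval₂RingHom, ← eval_map, map_cyclotomic_int]
  exact hω

open Polynomial in
theorem poly_odd (e : ℕ) (he : Odd e) (x : ℤ) (hx : Odd x) (r : ℤ[X])
    (h : cyclotomic e ℤ ∣ X ^ 2 * r ^ 2 - (C x * X ^ 2 - X ^ 4 - 1)) : e ∣ 3 ∨ e ∣ 5 := by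
  obtain ⟨u, hu⟩ := h
  obtain ⟨k, rfl⟩ := hx
  -- `x = 2 k + 1`, `x² + x = 2 m`, `m = (2 k + 1) (k + 1)`
  set x : ℤ := 2 * k + 1 with hxk
  obtain ⟨q, g, hqg⟩ := po_lift he (s := X * r - (X ^ 2 + C x * X + 1))
    (p := C x * X ^ 3 + C ((2 * k + 1) * (k + 1) + 1) * X ^ 2 + C x * X -
      X * r * (X ^ 2 + C x * X + 1)) ⟨u, by
      rw [← hu, hxk]
      simp only [C_add, C_mul, C_1, C_ofNat]
      ring⟩
  have hXr : X * r = (X ^ 2 + C x * X + 1) + cyclotomic e ℤ * q + C 2 * g := by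
    rw [add_assoc, ← hqg]
    ring
  have hX2 : X ^ 2 * r ^ 2 = ((X ^ 2 + C x * X + 1) + cyclotomic e ℤ * q + C 2 * g) ^ 2 := by
    rw [← hXr]
    ring
  rw [hX2] at hu
  obtain ⟨w', hw'⟩ := po_half (e := e)
    (h := X ^ 4 + C x * X ^ 3 + C (2 * k ^ 2 + k + 1) * X ^ 2 + C x * X + 1 +
      C 2 * (g * (X ^ 2 + C x * X + 1) + g ^ 2))
    (w := u - q * (2 * ((X ^ 2 + C x * X + 1) + C 2 * g) + cyclotomic e ℤ * q)) (by
      rw [mul_sub, ← hu, hxk]
      simp only [C_add, C_mul, C_1, C_ofNat, C_pow]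
      ring)
  obtain ⟨ω, hω, hev⟩ := po_root he
  have h2 : (2 : AlgebraicClosure (ZMod 2)) = 0 := CharTwo.two_eq_zero
  set ev := Polynomial.eval₂RingHom (Int.castRingHom (AlgebraicClosure (ZMod 2))) ω with hevd
  have hC : ∀ a : ℤ, ev (C a) = (a : AlgebraicClosure (ZMod 2)) := by
    intro a
    rw [hevd, coe_eval₂RingHom, eval₂_C]
    rfl
  have hX : ev X = ω := by rw [hevd, coe_eval₂RingHom, eval₂_X]
  have h3 := congrArg ev hw'
  rw [map_mul, hev, zero_mul] at h3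
  have h4 : ω ^ 4 + ω ^ 3 + (k + 1) * ω ^ 2 + ω + 1 = 0 := by
    simp only [map_add, map_mul, map_pow, map_one, hC, hX, hxk] at h3
    push_cast at h3
    rw [h2] at h3
    linear_combination h3
  rcases Int.even_or_odd' k with ⟨j, rfl | rfl⟩
  · right
    apply hω.dvd_of_pow_eq_one
    push_cast at h4
    rw [h2] at h4
    linear_combination (ω - 1) * h4
  · left
    apply hω.dvd_of_pow_eq_one
    push_cast at h4
    rw [h2] at h4
    have h6 : (ω + 1) * (ω ^ 3 + 1) = 0 := by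
      linear_combination h4 - ω ^ 2 * h2
    rcases mul_eq_zero.1 h6 with h7 | h7
    · have h8 : ω = 1 := by linear_combination h7 - h2
      rw [h8, one_pow]
    · linear_combination h7 - h2

end Pool.Agent.SC4
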