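import Mathlib

set_option autoImplicit false

/-
MODULE PolyTwo (size M). `e` odd, `Φ = cyclotomic e ℤ`, `x` an odd integer.
Hypothesis: Φ divides `X² r² - (x X² + X⁴ + 1)`. Claim: `e ∣ 3`.
Let `Q = X² + x X + 1`, `s = X r - Q`.
(1) mod Φ: `s² ≡ x X² + X⁴ + 1 - 2 X r Q + Q² = 2 X⁴ + 2x X³ + (x²+x+2) X² + 2x X + 2 - 2 X r Q`,
 which is 2 * (polynomial) because `x² + x` is even.
(2) Over `ZMod 2`, `Φ.map` is squarefree (e odd) and divides `(s.map)²`, so it divides `s.map`; lift: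
 `s = Φ q + 2 g`.
(3) `X r ≡ Q + 2 g` mod Φ, so `x X² + X⁴ + 1 ≡ Q² + 4 (g Q + g²)` mod Φ, and
 `Q² - X⁴ - 1 - x X² = 2 (x X³ + c X² + x X)` with `2 c = x² - x + 2`. So
 `2 h + 4 h' = Φ w` with `h = x X³ + c X² + x X`; `w` is divisible by 2 (Φ monic), `h + 2 h' = Φ w'`.
(4) `ω` a primitive `e`-th root of unity in an algebraic closure `F` of `ZMod 2`:
 `ω³ + c ω² + ω = 0`, so `ω² + c ω + 1 = 0`. If `c` is even then `ω² = 1` (char 2: `(ω+1)² = 0`,
 `ω = 1`), `e = 1`; if `c` is odd then `ω³ - 1 = (ω - 1)(ω² + ω + 1) = 0`, so `e ∣ 3`.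
(Same method as module PolyOdd.)
-/

namespace Pool.Agent.SC4

open Polynomial in
private theorem pt_two_dvd {p : ℤ[X]} (h : p.map (Int.castRingHom (ZMod 2)) = 0) :
    ∃ g : ℤ[X], p = C 2 * g := by
  have h1 : C (2 : ℤ) ∣ p := by
    rw [C_dvd_iff_dvd_coeff]
    intro i
    have h2 := congrArg (fun q => q.coeff i) h
    simp only [coeff_map, coeff_zero, eq_intCast] at h2
    exact (ZMod.intCast_zmod_eq_zero_iff_dvd _ 2).1 h2
  exact h1

open Polynomial in
private theorem pt_neZero {e : ℕ} (he : Odd e) (K : Type) [Field K] [CharP K 2] :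
    NeZero (e : K) := by
  refine ⟨fun h => ?_⟩
  rw [CharP.cast_eq_zero_iff K 2] at h
  exact (Nat.not_even_iff_odd.2 he) (even_iff_two_dvd.2 h)

open Polynomial in
private theorem pt_lift {e : ℕ} (he : Odd e) {s p : ℤ[X]} (h : cyclotomic e ℤ ∣ s ^ 2 - C 2 * p) :
    ∃ q g : ℤ[X], s = cyclotomic e ℤ * q + C 2 * g := by
  have := pt_neZero he (ZMod 2)
  have h1 := Polynomial.map_dvd (Int.castRingHom (ZMod 2)) h
  have h20 : (C 2 : ℤ[X]).map (Int.castRingHom (ZMod 2)) = 0 := by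
    rw [map_C]
    have : (Int.castRingHom (ZMod 2)) 2 = 0 := by decide
    rw [this, C_0]
  rw [Polynomial.map_sub, Polynomial.map_mul, h20, zero_mul, sub_zero, Polynomial.map_pow,
    map_cyclotomic_int] at h1
  have h2 : cyclotomic e (ZMod 2) ∣ s.map (Int.castRingHom (ZMod 2)) :=
    ((squarefree_cyclotomic e (ZMod 2)).dvd_pow_iff_dvd two_ne_zero).1 h1
  obtain ⟨q', hq'⟩ := h2
  obtain ⟨q, rfl⟩ := Polynomial.map_surjective (Int.castRingHom (ZMod 2))
    (ZMod.ringHom_surjective _) q'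
  obtain ⟨g, hg⟩ := pt_two_dvd (p := s - cyclotomic e ℤ * q) (by
    rw [Polynomial.map_sub, Polynomial.map_mul, map_cyclotomic_int, hq', sub_self])
  exact ⟨q, g, by rw [← hg]; ring⟩

open Polynomial in
private theorem pt_half {e : ℕ} {h w : ℤ[X]} (hw : C 2 * h = cyclotomic e ℤ * w) :
    ∃ w' : ℤ[X], h = cyclotomic e ℤ * w' := by
  have h20 : (C 2 : ℤ[X]).map (Int.castRingHom (ZMod 2)) = 0 := by
    rw [map_C]
    have : (Int.castRingHom (ZMod 2)) 2 = 0 := by decide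
    rw [this, C_0]
  have h1 := congrArg (fun p => p.map (Int.castRingHom (ZMod 2))) hw
  simp only [Polynomial.map_mul, h20, zero_mul, map_cyclotomic_int] at h1
  have h2 : w.map (Int.castRingHom (ZMod 2)) = 0 := by
    rcases mul_eq_zero.1 h1.symm with h3 | h3
    · exact absurd h3 (cyclotomic_ne_zero e (ZMod 2))
    · exact h3
  obtain ⟨w', rfl⟩ := pt_two_dvd h2
  refine ⟨w', ?_⟩
  have h3 : (C 2 : ℤ[X]) ≠ 0 := by
    rw [Ne, C_eq_zero]
    exact two_ne_zero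
  apply mul_left_cancel₀ h3
  rw [hw]
  ring

open Polynomial in
private theorem pt_root {e : ℕ} (he : Odd e) : ∃ ω : AlgebraicClosure (ZMod 2),
    IsPrimitiveRoot ω e ∧
      Polynomial.eval₂RingHom (Int.castRingHom (AlgebraicClosure (ZMod 2))) ω (cyclotomic e ℤ) = 0 := by
  have hc : CharP (AlgebraicClosure (ZMod 2)) 2 := inferInstance
  have := pt_neZero he (AlgebraicClosure (ZMod 2))
  have hpos : 0 < e := he.pos
  obtain ⟨ω, hω⟩ := IsAlgClosed.exists_root (cyclotomic e (AlgebraicClosure (ZMod 2)))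
    (degree_cyclotomic_pos e _ hpos).ne'
  refine ⟨ω, (isRoot_cyclotomic_iff).1 hω, ?_⟩
  rw [coe_eval₂RingHom, ← eval_map, map_cyclotomic_int]
  exact hω

open Polynomial in
theorem poly_two (e : ℕ) (he : Odd e) (x : ℤ) (hx : Odd x) (r : ℤ[X])
    (h : cyclotomic e ℤ ∣ X ^ 2 * r ^ 2 - (C x * X ^ 2 + X ^ 4 + 1)) : e ∣ 3 := by
  obtain ⟨u, hu⟩ := h
  obtain ⟨k, rfl⟩ := hx
  set x : ℤ := 2 * k + 1 with hxk
  obtain ⟨q, g, hqg⟩ := pt_lift he (s := X * r - (X ^ 2 + C x * X + 1))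
    (p := X ^ 4 + C x * X ^ 3 + C ((2 * k + 1) * (k + 1) + 1) * X ^ 2 + C x * X + 1 -
      X * r * (X ^ 2 + C x * X + 1)) ⟨u, by
      rw [← hu, hxk]
      simp only [C_add, C_mul, C_1, C_ofNat]
      ring⟩
  have hXr : X * r = (X ^ 2 + C x * X + 1) + cyclotomic e ℤ * q + C 2 * g := by
    rw [add_assoc, ← hqg]
    ring
  have hX2 : X ^ 2 * r ^ 2 = ((X ^ 2 + C x * X + 1) + cyclotomic e ℤ * q + C 2 * g) ^ 2 := by
    rw [← hXr]
    ring
  rw [hX2] at hu
  obtain ⟨w', hw'⟩ := pt_half (e := e)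
    (h := C x * X ^ 3 + C (2 * k ^ 2 + k + 1) * X ^ 2 + C x * X +
      C 2 * (g * (X ^ 2 + C x * X + 1) + g ^ 2))
    (w := u - q * (2 * ((X ^ 2 + C x * X + 1) + C 2 * g) + cyclotomic e ℤ * q)) (by
      rw [mul_sub, ← hu, hxk]
      simp only [C_add, C_mul, C_1, C_ofNat, C_pow]
      ring)
  obtain ⟨ω, hω, hev⟩ := pt_root he
  have h2 : (2 : AlgebraicClosure (ZMod 2)) = 0 := CharTwo.two_eq_zero
  set ev := Polynomial.eval₂RingHom (Int.castRingHom (AlgebraicClosure (ZMod 2))) ω with hevd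
  have hC : ∀ a : ℤ, ev (C a) = (a : AlgebraicClosure (ZMod 2)) := by
    intro a
    rw [hevd, coe_eval₂RingHom, eval₂_C]
    rfl
  have hX : ev X = ω := by rw [hevd, coe_eval₂RingHom, eval₂_X]
  have h3 := congrArg ev hw'
  rw [map_mul, hev, zero_mul] at h3
  have h4 : ω * (ω ^ 2 + (k + 1) * ω + 1) = 0 := by
    simp only [map_add, map_mul, map_pow, map_one, hC, hX, hxk] at h3
    push_cast at h3
    rw [h2] at h3
    linear_combination h3
  have hω0 : ω ≠ 0 := hω.ne_zero he.pos.ne'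
  have h5 : ω ^ 2 + (k + 1) * ω + 1 = 0 := by
    rcases mul_eq_zero.1 h4 with h5 | h5
    · exact absurd h5 hω0
    · exact h5
  rcases Int.even_or_odd' k with ⟨j, rfl | rfl⟩
  · apply hω.dvd_of_pow_eq_one
    push_cast at h5
    rw [h2] at h5
    linear_combination (ω - 1) * h5
  · push_cast at h5
    rw [h2] at h5
    have h6 : ω ^ 2 = 1 := by
      linear_combination h5 - (ω + 1) * h2
    have h7 : e ∣ 2 := hω.dvd_of_pow_eq_one 2 h6
    have h8 : e = 1 := by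
      have h9 : e ≤ 2 := Nat.le_of_dvd (by norm_num) h7
      obtain ⟨m, hm⟩ := he
      omega
    rw [h8]
    exact one_dvd 3

end Pool.Agent.SC4
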