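import Mathlib
import Pool.Agent.Work.MP_2d1b31_co.PolyOdd
import Pool.Agent.Work.MP_2d1b31_co.PolyTwo
import Pool.Agent.Work.MP_2d1b31_co.PolyFour
import Pool.Agent.Work.MP_2d1b31_co.Fld

set_option autoImplicit false

/-
MODULE NTe (size M). `x` odd, `ζ` a primitive `e`-th root of unity, `β ∈ ℚ⟮ζ⟯`,
`β² = x - (ζ + ζ⁻¹)`. Then `e ≤ 6` (more precisely `e ∈ {1,2,3,4,5,6}`).
`β` is integral (its square is).
* `e` odd: `ξ = ζ^((e+1)/2)` is a primitive `e`-th root of unity (`(e+1)/2` is coprime to `e`) and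
 `ξ² = ζ^(e+1) = ζ`, so `β ∈ ℚ⟮ζ⟯ ≤ ℚ⟮ξ⟯`. By `exists_poly`, `β = r(ξ)`; the polynomial
 `X² r² - (x X² - X⁴ - 1)` vanishes at `ξ` (multiply `β² = x - ξ² - ξ⁻²` by `ξ²`), so `cyc_dvd` and
 `poly_odd` give `e ∣ 3` or `e ∣ 5`.
* `e = 2 e'`, `e'` odd: `ζ' = -ζ` is a primitive `e'`-th root of unity (`(-ζ)^e' = - ζ^e' = 1` since
 `ζ^e' = -1`; order exactly e' because the order of ζ is 2e'), `ℚ⟮ζ⟯ = ℚ⟮ζ'⟯`,
 `β² = x + ζ' + ζ'⁻¹`, `ξ = ζ'^((e'+1)/2)`; `poly_two` gives `e' ∣ 3`, so `e ∈ {2, 6}`.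
* `4 ∣ e`: `β = r(ζ)`, `X r² - (x X - X² - 1)` vanishes at `ζ`, `poly_four`: `e = 4`.
-/

namespace Pool.Agent.SC4

private theorem adj_le {ζ ξ : ℂ} (h : ζ ∈ IntermediateField.adjoin ℚ {ξ}) :
    IntermediateField.adjoin ℚ {ζ} ≤ IntermediateField.adjoin ℚ {ξ} := by
  rw [IntermediateField.adjoin_le_iff, Set.singleton_subset_iff]
  exact h

private theorem half_root {e k : ℕ} {ζ : ℂ} (hζ : IsPrimitiveRoot ζ e) (hk : e = 2 * k + 1) :
    IsPrimitiveRoot (ζ ^ (k + 1)) e ∧ (ζ ^ (k + 1)) ^ 2 = ζ := by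
  refine ⟨hζ.pow_of_coprime _ ?_, ?_⟩
  · rw [hk, Nat.coprime_comm]
    have h1 : Nat.Coprime (k + (k + 1)) (k + 1) := by
      rw [Nat.coprime_add_self_left]
      exact (Nat.coprime_self_add_right).2 (Nat.coprime_one_right k)
    have h2 : 2 * k + 1 = k + (k + 1) := by ring
    rw [h2]
    exact h1
  · rw [← pow_mul]
    have h1 : (k + 1) * 2 = e + 1 := by omega
    rw [h1, pow_succ, hζ.pow_eq_one, one_mul]

theorem order_le_six (e : ℕ) (he : 0 < e) (ζ : ℂ) (hζ : IsPrimitiveRoot ζ e) (x : ℤ)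
    (hx : Odd x) (β : ℂ) (hβ : β ∈ IntermediateField.adjoin ℚ {ζ})
    (h : β ^ 2 = (x : ℂ) - (ζ + ζ⁻¹)) : e ≤ 6 := by
  have hint : IsIntegral ℤ β := by
    refine IsIntegral.of_pow (n := 2) (by norm_num) ?_
    rw [h]
    refine IsIntegral.sub ?_ (IsIntegral.add (hζ.isIntegral he) (hζ.inv.isIntegral he))
    exact isIntegral_algebraMap (R := ℤ) (A := ℂ) (x := x)
  rcases Nat.even_or_odd e with hev | hodd
  · obtain ⟨e', he'⟩ := hev
    rcases Nat.even_or_odd e' with hev' | hodd'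
    · -- divisible by four
      obtain ⟨m, hm⟩ := hev'
      obtain ⟨r, hr⟩ := exists_poly e he ζ hζ β hβ hint
      have hζ0 : ζ ≠ 0 := hζ.ne_zero he.ne'
      have h1 : Polynomial.aeval ζ (Polynomial.X * r ^ 2 - (Polynomial.C x * Polynomial.X -
          Polynomial.X ^ 2 - 1)) = 0 := by
        simp only [map_sub, map_mul, map_pow, Polynomial.aeval_X, hr, map_one, h,
          Polynomial.aeval_C, algebraMap_int_eq, eq_intCast, map_intCast]
        field_simp
        ring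
      have h2 := poly_four e he ⟨m, by omega⟩ x hx r (cyc_dvd e he ζ hζ _ h1)
      omega
    · obtain ⟨k, hk⟩ := hodd'
      have hneg : IsPrimitiveRoot (-ζ) e' := by
        refine ⟨?_, fun l hl => ?_⟩
        · have h1 : ζ ^ e' = -1 := by
            have h2 : (ζ ^ e') ^ 2 = 1 := by
              rw [← pow_mul]
              have h3 : e' * 2 = e := by omega
              rw [h3, hζ.pow_eq_one]
            have h7 : ζ ^ e' * ζ ^ e' = 1 := by rw [← sq]; exact h2
            rcases mul_self_eq_one_iff.1 h7 with h3 | h3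
            · exfalso
              have h4 := Nat.le_of_dvd (by omega) (hζ.dvd_of_pow_eq_one e' h3)
              omega
            · exact h3
          rw [Odd.neg_pow ⟨k, hk⟩, h1, neg_neg]
        · have h1 : ζ ^ (2 * l) = 1 := by
            have h2 : ((-ζ) ^ l) ^ 2 = 1 := by rw [hl, one_pow]
            rw [← pow_mul, mul_comm l 2, pow_mul, neg_sq, ← pow_mul] at h2
            exact h2
          have h2 := hζ.dvd_of_pow_eq_one _ h1
          rw [he', ← two_mul] at h2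
          exact Nat.dvd_of_mul_dvd_mul_left (by norm_num) h2
      obtain ⟨h1, h2⟩ := half_root hneg hk
      obtain ⟨ξ, hξ⟩ : ∃ ξ, (-ζ) ^ (k + 1) = ξ := ⟨_, rfl⟩
      rw [hξ] at h1 h2
      have he0 : 0 < e' := by omega
      have hβ' : β ∈ IntermediateField.adjoin ℚ {ξ} := by
        refine adj_le ?_ hβ
        have h3 : ζ = -ξ ^ 2 := by rw [h2, neg_neg]
        rw [h3]
        exact neg_mem (pow_mem (IntermediateField.mem_adjoin_simple_self ℚ ξ) 2)
      obtain ⟨r, hr⟩ := exists_poly e' he0 ξ h1 β hβ' hint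
      have hξ0 : ξ ≠ 0 := h1.ne_zero he0.ne'
      have h3 : Polynomial.aeval ξ (Polynomial.X ^ 2 * r ^ 2 - (Polynomial.C x * Polynomial.X ^ 2 +
          Polynomial.X ^ 4 + 1)) = 0 := by
        have h4 : ζ = -ξ ^ 2 := by rw [h2, neg_neg]
        simp only [map_sub, map_add, map_mul, map_pow, Polynomial.aeval_X, hr, map_one, h,
          Polynomial.aeval_C, algebraMap_int_eq, eq_intCast, map_intCast, h4]
        field_simp
        ring
      have h4 := poly_two e' ⟨k, hk⟩ x hx r (cyc_dvd e' he0 ξ h1 _ h3)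
      have h5 := Nat.le_of_dvd (by norm_num) h4
      omega
  · have hodd' := hodd
    obtain ⟨k, hk⟩ := hodd
    obtain ⟨h1, h2⟩ := half_root hζ hk
    obtain ⟨ξ, hξ⟩ : ∃ ξ, ζ ^ (k + 1) = ξ := ⟨_, rfl⟩
    rw [hξ] at h1 h2
    have hβ' : β ∈ IntermediateField.adjoin ℚ {ξ} := by
      refine adj_le ?_ hβ
      rw [← h2]
      exact pow_mem (IntermediateField.mem_adjoin_simple_self ℚ ξ) 2
    obtain ⟨r, hr⟩ := exists_poly e he ξ h1 β hβ' hint
    have hξ0 : ξ ≠ 0 := h1.ne_zero he.ne'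
    have h3 : Polynomial.aeval ξ (Polynomial.X ^ 2 * r ^ 2 - (Polynomial.C x * Polynomial.X ^ 2 -
        Polynomial.X ^ 4 - 1)) = 0 := by
      simp only [map_sub, map_mul, map_pow, Polynomial.aeval_X, hr, map_one, h,
        Polynomial.aeval_C, algebraMap_int_eq, eq_intCast, map_intCast, ← h2]
      field_simp
      ring
    rcases poly_odd e hodd' x hx r (cyc_dvd e he ξ h1 _ h3) with h4 | h4
    · have h5 := Nat.le_of_dvd (by norm_num) h4
      omega
    · have h5 := Nat.le_of_dvd (by norm_num) h4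
      omega

end Pool.Agent.SC4
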