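import Mathlib
import Pool.Agent.Work.MP_2d1b31_co.NTe
import Pool.Agent.Work.MP_2d1b31_co.Five

set_option autoImplicit false

/-
MODULE NT (size M). Let `e = orderOf ζ > 0`, so `ζ` is a primitive `e`-th root of unity. The complex
number `α` lies in `ℚ⟮ζ⟯`: `α ∈ ℚ[α²]` and `α² = x - ζ - ζ⁻¹ ∈ ℚ⟮ζ⟯` (map the real statement to ℂ).
`order_le_six`: `e ≤ 6`. Then
 `e = 1`: `ζ = 1`, `θ = 2`; `e = 2`: `ζ = -1`, `θ = -2`; `e = 3`: `ζ² + ζ + 1 = 0`, `θ = -1`;
 `e = 4`: `ζ² = -1`, `θ = 0`; `e = 6`: `ζ² - ζ + 1 = 0`, `θ = 1`;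
 `e = 5`: `1 + ζ + ζ² + ζ³ + ζ⁴ = 0` gives `θ² + θ - 1 = 0`, excluded by `five`.
So `θ = t` is an integer with `|t| ≤ 2`, `α² = x - t` is an integer, `α ∈ ℚ[α²] = ℚ` is rational with
integral square, so `α = q` is an integer.
-/

namespace Pool.Agent.SC4

private theorem intCase (x : ℤ) (α θ : ℝ) (h : α ^ 2 = (x : ℝ) - θ)
    (hα : α ∈ Algebra.adjoin ℚ {α ^ 2}) (t : ℤ) (ht : |t| ≤ 2) (hθ : θ = t) :
    ∃ t q : ℤ, |t| ≤ 2 ∧ α = q ∧ q ^ 2 = x - t := by
  have hbot : α ∈ (⊥ : Subalgebra ℚ ℝ) := by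
    have hle : Algebra.adjoin ℚ {α ^ 2} ≤ (⊥ : Subalgebra ℚ ℝ) := by
      refine Algebra.adjoin_le ?_
      rintro y rfl
      refine Algebra.mem_bot.2 ⟨((x - t : ℤ) : ℚ), ?_⟩
      rw [h, hθ]
      simp
    exact hle hα
  obtain ⟨r, hr⟩ := Algebra.mem_bot.1 hbot
  have hr' : (r : ℝ) = α := hr
  have hr2 : r ^ 2 = ((x - t : ℤ) : ℚ) := by
    have h1 : ((r ^ 2 : ℚ) : ℝ) = (((x - t : ℤ) : ℚ) : ℝ) := by
      push_cast
      rw [hr', h, hθ]
    exact_mod_cast h1
  have hint : IsIntegral ℤ (r ^ 2) := by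
    rw [hr2]
    exact isIntegral_algebraMap (R := ℤ) (x := x - t)
  have hint' : IsIntegral ℤ r := hint.of_pow (by norm_num)
  obtain ⟨q, hq⟩ := (IsIntegrallyClosed.isIntegral_iff (R := ℤ) (K := ℚ)).1 hint'
  have hq' : (q : ℚ) = r := hq
  refine ⟨t, q, ht, ?_, ?_⟩
  · rw [← hr', ← hq']
    simp
  · rw [← hq'] at hr2
    exact_mod_cast hr2

theorem nt (x : ℤ) (hx : Odd x) (hx2 : 2 ≤ x) (α θ : ℝ) (h : α ^ 2 = (x : ℝ) - θ) (ζ : ℂ) (n : ℕ)
    (hn : 0 < n) (hζ : ζ ^ n = 1) (hθ : (θ : ℂ) = ζ + ζ⁻¹)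
    (hα : α ∈ Algebra.adjoin ℚ {α ^ 2}) :
    ∃ t q : ℤ, |t| ≤ 2 ∧ α = q ∧ q ^ 2 = x - t := by
  have hfin : IsOfFinOrder ζ := isOfFinOrder_iff_pow_eq_one.2 ⟨n, hn, hζ⟩
  have he : 0 < orderOf ζ := hfin.orderOf_pos
  have hprim : IsPrimitiveRoot ζ (orderOf ζ) := IsPrimitiveRoot.orderOf ζ
  have hζ0 : ζ ≠ 0 := by
    rintro rfl
    rw [zero_pow hn.ne'] at hζ
    exact zero_ne_one hζ
  have hmemζ : ζ ∈ IntermediateField.adjoin ℚ {ζ} := IntermediateField.mem_adjoin_simple_self ℚ ζ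
  have hsq : ((α : ℂ)) ^ 2 = (x : ℂ) - (ζ + ζ⁻¹) := by
    rw [← hθ]
    have h1 : (((α ^ 2 : ℝ)) : ℂ) = (((x : ℝ) - θ : ℝ) : ℂ) := by rw [h]
    push_cast at h1
    exact h1
  have hmap : ∀ y ∈ Algebra.adjoin ℚ {α ^ 2}, (y : ℂ) ∈ IntermediateField.adjoin ℚ {ζ} := by
    intro y hy
    induction hy using Algebra.adjoin_induction with
    | mem y hy =>
      rw [Set.mem_singleton_iff] at hy
      rw [hy]
      push_cast
      rw [hsq]
      refine sub_mem ?_ (add_mem hmemζ (inv_mem hmemζ))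
      simp
    | algebraMap r =>
      simp
    | add y z _ _ hy hz =>
      push_cast
      exact add_mem hy hz
    | mul y z _ _ hy hz =>
      push_cast
      exact mul_mem hy hz
  have hβ := hmap α hα
  have hle := order_le_six (orderOf ζ) he ζ hprim x hx (α : ℂ) hβ hsq
  have hpow : ζ ^ orderOf ζ = 1 := pow_orderOf_eq_one ζ
  have hlt : ∀ k, 0 < k → k < orderOf ζ → ζ ^ k ≠ 1 := fun k h1 h2 => pow_ne_one_of_lt_orderOf h1.ne' h2
  have hcast : ∀ t : ℤ, ζ + ζ⁻¹ = (t : ℂ) → θ = t := by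
    intro t ht
    rw [ht] at hθ
    exact_mod_cast hθ
  generalize orderOf ζ = e at he hle hpow hlt
  interval_cases e
  · -- e = 1
    rw [pow_one] at hpow
    refine intCase x α θ h hα 2 (by norm_num) (hcast 2 ?_)
    rw [hpow]
    norm_num
  · -- e = 2
    have h1 := hlt 1 (by norm_num) (by norm_num)
    rw [pow_one] at h1
    have h2 : (ζ - 1) * (ζ + 1) = 0 := by linear_combination hpow
    have h3 : ζ = -1 := by
      rcases mul_eq_zero.1 h2 with h2 | h2
      · exact absurd (by linear_combination h2) h1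
      · linear_combination h2
    refine intCase x α θ h hα (-2) (by norm_num) (hcast (-2) ?_)
    rw [h3]
    norm_num
  · -- e = 3
    have h1 := hlt 1 (by norm_num) (by norm_num)
    rw [pow_one] at h1
    have h2 : (ζ - 1) * (ζ ^ 2 + ζ + 1) = 0 := by linear_combination hpow
    have h3 : ζ ^ 2 + ζ + 1 = 0 := by
      rcases mul_eq_zero.1 h2 with h2 | h2
      · exact absurd (by linear_combination h2) h1
      · exact h2
    refine intCase x α θ h hα (-1) (by norm_num) (hcast (-1) ?_)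
    field_simp
    push_cast
    linear_combination h3
  · -- e = 4
    have h1 := hlt 2 (by norm_num) (by norm_num)
    have h2 : (ζ ^ 2 - 1) * (ζ ^ 2 + 1) = 0 := by linear_combination hpow
    have h3 : ζ ^ 2 + 1 = 0 := by
      rcases mul_eq_zero.1 h2 with h2 | h2
      · exact absurd (by linear_combination h2) h1
      · exact h2
    refine intCase x α θ h hα 0 (by norm_num) (hcast 0 ?_)
    field_simp
    push_cast
    linear_combination h3
  · -- e = 5
    have h1 := hlt 1 (by norm_num) (by norm_num)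
    rw [pow_one] at h1
    have h2 : (ζ - 1) * (ζ ^ 4 + ζ ^ 3 + ζ ^ 2 + ζ + 1) = 0 := by linear_combination hpow
    have h3 : ζ ^ 4 + ζ ^ 3 + ζ ^ 2 + ζ + 1 = 0 := by
      rcases mul_eq_zero.1 h2 with h2 | h2
      · exact absurd (by linear_combination h2) h1
      · exact h2
    have h4 : (θ : ℂ) ^ 2 + θ - 1 = 0 := by
      rw [hθ]
      field_simp
      linear_combination h3
    have h5 : θ ^ 2 + θ - 1 = 0 := by exact_mod_cast h4
    exact (five x hx2 θ α h5 h hα).elim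
  · -- e = 6
    have h1 := hlt 3 (by norm_num) (by norm_num)
    have h2 := hlt 2 (by norm_num) (by norm_num)
    have h3 : (ζ ^ 3 - 1) * (ζ ^ 3 + 1) = 0 := by linear_combination hpow
    have h4 : ζ ^ 3 + 1 = 0 := by
      rcases mul_eq_zero.1 h3 with h3 | h3
      · exact absurd (by linear_combination h3) h1
      · exact h3
    have h5 : (ζ + 1) * (ζ ^ 2 - ζ + 1) = 0 := by linear_combination h4
    have h6 : ζ ^ 2 - ζ + 1 = 0 := by
      rcases mul_eq_zero.1 h5 with h5 | h5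
      · exact absurd (by linear_combination (ζ - 1) * h5) h2
      · exact h5
    refine intCase x α θ h hα 1 (by norm_num) (hcast 1 ?_)
    field_simp
    push_cast
    linear_combination h6

end Pool.Agent.SC4
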