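import Mathlib

set_option autoImplicit false

/-
MODULE PolySum (size M). `P` a monic rational polynomial with only real roots; every real root `α`
with `α ∈ ℚ[α²]` is `0` or `± b`. Then the sum of the roots is `b s` and the sum of their cubes is
`b³ s` for an integer `s`.
Induction on the degree (or `Polynomial` induction over irreducible factors): for degree 0 take
`s = 0`. Otherwise let `m` be a monic irreducible factor, `P = m Q`, the roots of `P` are the roots
of `m` together with those of `Q` (`Polynomial.roots_mul`), both split over ℝ.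
 Let `α` be a real root of `m`.
 (A) `m(-α) = 0`: then `m` divides `m(-X)` (irreducible, common root `α`), equal degrees, so
 `m(-X) = (-1)^deg m * m`, the multiset of roots of `m` is invariant under negation, and the sums of
 the roots and of the cubes vanish.
 (B) `m(-α) ≠ 0`: write `m = a(X²) + X c(X²)` (even and odd coefficients); `m(α) = 0`,
 `m(-α) ≠ 0` give `c(α²) ≠ 0` and `α = - a(α²)/c(α²)`, which lies in `ℚ[α²]`, a field because `α²` is
 algebraic. So `α ∈ {0, b, -b}` is rational and `m = X - α` (irreducible with a rational root):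
 the contribution is `α = b s₀`, `α³ = b³ s₀` with `s₀ ∈ {0, 1, -1}`.
-/

namespace Pool.Agent.SC4

open Polynomial in
private theorem evenOdd (m : ℚ[X]) : ∃ A B : ℚ[X], m = A.comp (X ^ 2) + X * B.comp (X ^ 2) := by
  induction m using Polynomial.induction_on' with
  | add p q hp hq =>
    obtain ⟨A, B, h1⟩ := hp
    obtain ⟨A', B', h2⟩ := hq
    refine ⟨A + A', B + B', ?_⟩
    rw [add_comp, add_comp]
    nth_rewrite 1 [h1]
    nth_rewrite 1 [h2]
    ring
  | monomial n a =>
    obtain ⟨k, hk | hk⟩ := Nat.even_or_odd' n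
    · refine ⟨monomial k a, 0, ?_⟩
      rw [hk, zero_comp, mul_zero, add_zero, monomial_comp, ← pow_mul, C_mul_X_pow_eq_monomial]
    · refine ⟨0, monomial k a, ?_⟩
      rw [hk, zero_comp, zero_add, monomial_comp, ← pow_mul, ← C_mul_X_pow_eq_monomial]
      ring

private theorem oddSum (R : Multiset ℝ) (hn : R.Nodup) (hneg : ∀ β ∈ R, -β ∈ R) (f : ℝ → ℝ)
    (hf : ∀ x, f (-x) = -f x) : (R.map f).sum = 0 := by
  classical
  have h1 : (R.map f).sum = ∑ x ∈ R.toFinset, f x := by
    rw [Finset.sum, Multiset.toFinset_val, hn.dedup]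
  rw [h1]
  refine Finset.sum_involution (fun x _ => -x) ?_ ?_ ?_ ?_
  · intro x _
    rw [hf]
    ring
  · intro x _ hx h2
    apply hx
    have h3 : x = 0 := by linarith
    have h4 := hf 0
    rw [neg_zero] at h4
    rw [h3]
    linarith
  · intro x hx
    exact Multiset.mem_toFinset.2 (hneg x (Multiset.mem_toFinset.1 hx))
  · intro x _
    ring

open Polynomial in
private theorem irr (m : ℚ[X]) (hm : m.Monic) (hi : Irreducible m)
    (hs : (m.map (algebraMap ℚ ℝ)).Splits) (b : ℤ)
    (hroot : ∀ α ∈ (m.map (algebraMap ℚ ℝ)).roots, α ∈ Algebra.adjoin ℚ {α ^ 2} →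
      α = 0 ∨ α = b ∨ α = -b) :
    ∃ s : ℤ, (m.map (algebraMap ℚ ℝ)).roots.sum = (b : ℝ) * s ∧
      ((m.map (algebraMap ℚ ℝ)).roots.map (fun α => α ^ 3)).sum = (b : ℝ) ^ 3 * s := by
  classical
  have hm0 : m.map (algebraMap ℚ ℝ) ≠ 0 := (hm.map _).ne_zero
  have hmem : ∀ β : ℝ, β ∈ (m.map (algebraMap ℚ ℝ)).roots ↔ aeval β m = 0 := by
    intro β
    rw [mem_roots hm0, IsRoot.def, eval_map_algebraMap]
  by_cases hneg : ∃ α ∈ (m.map (algebraMap ℚ ℝ)).roots, aeval (-α) m = 0
  · obtain ⟨α, hα, hα'⟩ := hneg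
    have hmin : m = minpoly ℚ (-α) := minpoly.eq_of_irreducible_of_monic hi hα' hm
    have hd : m ∣ m.comp (-X) := by
      have h1 : aeval (-α) (m.comp (-X)) = 0 := by
        rw [aeval_comp]
        have h2 : aeval (-α) (-X : ℚ[X]) = α := by simp
        rw [h2]
        exact (hmem α).1 hα
      have h3 := minpoly.dvd ℚ (-α) h1
      rwa [← hmin] at h3
    have hsym : ∀ β ∈ (m.map (algebraMap ℚ ℝ)).roots, -β ∈ (m.map (algebraMap ℚ ℝ)).roots := by
      intro β hβ
      rw [hmem] at hβ ⊢
      obtain ⟨c, hc⟩ := hd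
      have h1 : aeval β (m.comp (-X)) = aeval (-β) m := by
        rw [aeval_comp]
        simp
      rw [← h1, hc, map_mul, hβ, zero_mul]
    have hnd : (m.map (algebraMap ℚ ℝ)).roots.Nodup := nodup_roots hi.separable.map
    refine ⟨0, ?_, ?_⟩
    · have h1 := oddSum _ hnd hsym id (fun x => rfl)
      rw [Multiset.map_id] at h1
      rw [h1]
      simp
    · have h1 := oddSum _ hnd hsym (fun x => x ^ 3) (fun x => by ring)
      rw [h1]
      simp
  · have hdeg : (m.map (algebraMap ℚ ℝ)).degree ≠ 0 := by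
      rw [degree_map]
      exact (degree_pos_of_irreducible hi).ne'
    obtain ⟨α, hα⟩ := hs.exists_eval_eq_zero hdeg
    have hα1 : aeval α m = 0 := by rwa [eval_map_algebraMap] at hα
    have hαr : α ∈ (m.map (algebraMap ℚ ℝ)).roots := (hmem α).2 hα1
    have hα2 : aeval (-α) m ≠ 0 := fun h => hneg ⟨α, hαr, h⟩
    have halg : IsAlgebraic ℚ α := ⟨m, hm.ne_zero, hα1⟩
    obtain ⟨A, B, hAB⟩ := evenOdd m
    have e1 : aeval α m = aeval (α ^ 2) A + α * aeval (α ^ 2) B := by
      rw [hAB]
      simp [aeval_comp]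
    have e2 : aeval (-α) m = aeval (α ^ 2) A - α * aeval (α ^ 2) B := by
      rw [hAB]
      simp [aeval_comp]
      ring
    have hB : aeval (α ^ 2) B ≠ 0 := by
      intro h
      rw [hα1, h, mul_zero, add_zero] at e1
      rw [← e1, h] at e2
      exact hα2 (by rw [e2]; ring)
    have hin : α ∈ Algebra.adjoin ℚ {α ^ 2} := by
      have h1 : α = -(aeval (α ^ 2) A * (aeval (α ^ 2) B)⁻¹) := by
        rw [hα1] at e1
        field_simp
        linarith
      have hA' : aeval (α ^ 2) A ∈ Algebra.adjoin ℚ {α ^ 2} := aeval_mem_adjoin_singleton ℚ _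
      have hB' : aeval (α ^ 2) B ∈ Algebra.adjoin ℚ {α ^ 2} := aeval_mem_adjoin_singleton ℚ _
      have hint : IsIntegral ℚ (α ^ 2) := (isAlgebraic_iff_isIntegral.1 halg).pow 2
      have halg2 : IsAlgebraic ℚ (aeval (α ^ 2) B) := by
        have h3 := adjoin_le_integralClosure hint hB'
        exact IsIntegral.isAlgebraic h3
      have hBi : (aeval (α ^ 2) B)⁻¹ ∈ Algebra.adjoin ℚ {α ^ 2} :=
        Subalgebra.inv_mem_of_algebraic (Algebra.adjoin ℚ {α ^ 2}) (x := ⟨_, hB'⟩) halg2
      have h9 := neg_mem (mul_mem hA' hBi)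
      rwa [← h1] at h9
    have hmin : m = minpoly ℚ α := minpoly.eq_of_irreducible_of_monic hi hα1 hm
    have key : ∀ r : ℚ, α = (r : ℝ) → (m.map (algebraMap ℚ ℝ)).roots = {(r : ℝ)} := by
      intro r hr
      have h1 : m = X - C r := by
        rw [hmin, hr]
        exact minpoly.eq_X_sub_C ℝ r
      rw [h1, Polynomial.map_sub, map_X, map_C, roots_X_sub_C]
      simp
    rcases hroot α hαr hin with h1 | h1 | h1
    · have h2 := key 0 (by rw [h1]; simp)
      refine ⟨0, ?_, ?_⟩
      · rw [h2]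
        simp
      · rw [h2]
        simp
    · have h2 := key b (by rw [h1]; simp)
      refine ⟨1, ?_, ?_⟩
      · rw [h2]
        simp
      · rw [h2]
        simp
    · have h2 := key (-b) (by rw [h1]; simp)
      refine ⟨-1, ?_, ?_⟩
      · rw [h2]
        simp
      · rw [h2]
        simp
        ring

open Polynomial in
theorem poly_sum (P : ℚ[X]) (hP : P.Monic) (hs : (P.map (algebraMap ℚ ℝ)).Splits) (b : ℤ)
    (hroot : ∀ α ∈ (P.map (algebraMap ℚ ℝ)).roots, α ∈ Algebra.adjoin ℚ {α ^ 2} →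
      α = 0 ∨ α = b ∨ α = -b) :
    ∃ s : ℤ, (P.map (algebraMap ℚ ℝ)).roots.sum = (b : ℝ) * s ∧
      ((P.map (algebraMap ℚ ℝ)).roots.map (fun α => α ^ 3)).sum = (b : ℝ) ^ 3 * s := by
  classical
  induction hn : P.natDegree using Nat.strong_induction_on generalizing P with
  | _ n ih =>
    by_cases hu : IsUnit P
    · have h1 : P = 1 := hP.eq_one_of_isUnit hu
      refine ⟨0, ?_, ?_⟩
      · rw [h1]
        simp
      · rw [h1]
        simp
    · obtain ⟨m, hm, hi, Q, hQ⟩ := exists_monic_irreducible_factor P hu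
      have hQm : Q.Monic := hm.of_mul_monic_left (hQ ▸ hP)
      have hP0 : P.map (algebraMap ℚ ℝ) ≠ 0 := (hP.map _).ne_zero
      have hmap : P.map (algebraMap ℚ ℝ) = m.map (algebraMap ℚ ℝ) * Q.map (algebraMap ℚ ℝ) := by
        rw [hQ, Polynomial.map_mul]
      have hr : (P.map (algebraMap ℚ ℝ)).roots =
          (m.map (algebraMap ℚ ℝ)).roots + (Q.map (algebraMap ℚ ℝ)).roots := by
        rw [hmap, roots_mul (hmap ▸ hP0)]
      have hms : (m.map (algebraMap ℚ ℝ)).Splits := hs.of_dvd hP0 ⟨_, hmap⟩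
      have hQs : (Q.map (algebraMap ℚ ℝ)).Splits :=
        hs.of_dvd hP0 ⟨m.map (algebraMap ℚ ℝ), by rw [hmap, mul_comm]⟩
      obtain ⟨s, hs1, hs2⟩ := irr m hm hi hms b (fun α hα => hroot α (by
        rw [hr]
        exact Multiset.mem_add.2 (Or.inl hα)))
      have hdeg : Q.natDegree < n := by
        rw [← hn, hQ, hm.natDegree_mul hQm]
        have := hi.natDegree_pos
        omega
      obtain ⟨s', hs1', hs2'⟩ := ih Q.natDegree hdeg Q hQm hQs (fun α hα => hroot α (by
        rw [hr]
        exact Multiset.mem_add.2 (Or.inr hα))) rfl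
      refine ⟨s + s', ?_, ?_⟩
      · rw [hr, Multiset.sum_add, hs1, hs1']
        push_cast
        ring
      · rw [hr, Multiset.map_add, Multiset.sum_add, hs2, hs2']
        push_cast
        ring

end Pool.Agent.SC4
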