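import Mathlib
import Pool.Agent.Work.MP_2d1b31_co.Defs

set_option autoImplicit false

/-
MODULE Reg (size S-M). `|V| = k² - k + 3`, `k ≥ 4`, no 4-cycle, all degrees at least `k`.
For a vertex `v` the sets `N(u) - v`, `u ∈ N(v)`, are pairwise disjoint (a common element would be
a second common neighbour of `u, u'` besides `v`, or a 4-cycle) subsets of `V - v`, so
  `sum_{u ∈ N(v)} (deg u - 1) ≤ |V| - 1`.   (*)
With `deg u ≥ k`: `deg v (k-1) ≤ k² - k + 2`, and `deg v ≥ k+1` would give
`k² - 1 ≤ k² - k + 2`, i.e. `k ≤ 3`. So every degree is `k`. The union of the sets in (*) is exactly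
the set of `w ≠ v` having a common neighbour with `v`; it has `k(k-1)` elements, so exactly
`k² - k + 2 - k(k-1) = 2` vertices `w ≠ v` have no common neighbour with `v`.
-/

namespace Pool.Agent.SC4

section aux

variable {V : Type*} [Fintype V] [DecidableEq V] (G : SimpleGraph V) [DecidableRel G.Adj]

/-- the vertices at distance two -/
private def two (v : V) : Finset V := (G.neighborFinset v).biUnion fun u => (G.neighborFinset u).erase v

private theorem mem_two {v w : V} : w ∈ two G v ↔ ∃ u, G.Adj v u ∧ w ≠ v ∧ G.Adj u w := by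
  simp only [two, Finset.mem_biUnion, SimpleGraph.mem_neighborFinset, Finset.mem_erase]

private theorem card_two (hG : C4Free G) (v : V) :
    (two G v).card = ∑ u ∈ G.neighborFinset v, (G.degree u - 1) := by
  unfold two
  rw [Finset.card_biUnion]
  · refine Finset.sum_congr rfl fun u hu => ?_
    rw [SimpleGraph.mem_neighborFinset] at hu
    rw [Finset.card_erase_of_mem (by rw [SimpleGraph.mem_neighborFinset]; exact hu.symm),
      SimpleGraph.card_neighborFinset_eq_degree]
  · intro u hu u' hu' hne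
    show Disjoint ((G.neighborFinset u).erase v) ((G.neighborFinset u').erase v)
    rw [Finset.disjoint_left]
    intro w hw hw'
    rw [Finset.mem_erase, SimpleGraph.mem_neighborFinset] at hw hw'
    rw [Finset.mem_coe, SimpleGraph.mem_neighborFinset] at hu hu'
    exact hne (hG v w u u' hw.1.symm hu hw.2.symm hu' hw'.2.symm)

private theorem two_sub (v : V) : two G v ⊆ Finset.univ.erase v := by
  intro w hw
  obtain ⟨u, -, h, -⟩ := (mem_two G).1 hw
  exact Finset.mem_erase.2 ⟨h, Finset.mem_univ _⟩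

end aux

theorem regular {V : Type*} [Fintype V] [DecidableEq V] (G : SimpleGraph V) [DecidableRel G.Adj]
    (k : ℕ) (hk : 4 ≤ k) (hcard : Fintype.card V + k = k ^ 2 + 3) (hG : C4Free G)
    (hdeg : ∀ v, k ≤ G.degree v) (v : V) : G.degree v = k := by
  have h1 := Finset.card_le_card (two_sub G v)
  rw [card_two G hG v, Finset.card_erase_of_mem (Finset.mem_univ v), Finset.card_univ] at h1
  have h2 : G.degree v * (k - 1) ≤ ∑ u ∈ G.neighborFinset v, (G.degree u - 1) := by
    rw [← SimpleGraph.card_neighborFinset_eq_degree, ← smul_eq_mul]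
    refine Finset.card_nsmul_le_sum _ _ _ fun u _ => ?_
    have := hdeg u
    omega
  by_contra hne
  have h3 : k + 1 ≤ G.degree v := by
    have := hdeg v
    omega
  have h4 : (k + 1) * (k - 1) ≤ Fintype.card V - 1 :=
    (Nat.mul_le_mul_right _ h3).trans (h2.trans h1)
  obtain ⟨l, rfl⟩ : ∃ l, k = l + 4 := ⟨k - 4, by omega⟩
  have h5 : l + 4 - 1 = l + 3 := by omega
  rw [h5] at h4
  have h6 : (l + 4) ^ 2 = l ^ 2 + 8 * l + 16 := by ring
  have h7 : (l + 4 + 1) * (l + 3) = l ^ 2 + 8 * l + 15 := by ring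
  rw [h6] at hcard
  rw [h7] at h4
  omega

theorem far_degree {V : Type*} [Fintype V] [DecidableEq V] (G : SimpleGraph V)
    [DecidableRel G.Adj] [DecidableRel (far G).Adj]
    (k : ℕ) (hk : 4 ≤ k) (hcard : Fintype.card V + k = k ^ 2 + 3) (hG : C4Free G)
    (hdeg : ∀ v, k ≤ G.degree v) (v : V) : (far G).degree v = 2 := by
  have hreg := regular G k hk hcard hG hdeg
  have h1 := card_two G hG v
  rw [Finset.sum_congr rfl (fun u _ => by rw [hreg u] : ∀ u ∈ G.neighborFinset v,
    G.degree u - 1 = k - 1), Finset.sum_const, SimpleGraph.card_neighborFinset_eq_degree,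
    hreg v, smul_eq_mul] at h1
  have h2 : (far G).neighborFinset v = (Finset.univ.erase v) \ two G v := by
    ext w
    rw [SimpleGraph.mem_neighborFinset, Finset.mem_sdiff, mem_two, Finset.mem_erase]
    constructor
    · rintro ⟨h, h'⟩
      exact ⟨⟨h.symm, Finset.mem_univ _⟩, fun ⟨u, h3, h4, h5⟩ => h' u ⟨h3, h5.symm⟩⟩
    · rintro ⟨⟨h, -⟩, h'⟩
      exact ⟨h.symm, fun u hu => h' ⟨u, hu.1, h, hu.2.symm⟩⟩
  rw [← SimpleGraph.card_neighborFinset_eq_degree, h2, Finset.card_sdiff_of_subset (two_sub G v),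
    h1, Finset.card_erase_of_mem (Finset.mem_univ v), Finset.card_univ]
  obtain ⟨l, rfl⟩ : ∃ l, k = l + 4 := ⟨k - 4, by omega⟩
  have h5 : l + 4 - 1 = l + 3 := by omega
  rw [h5]
  have h6 : (l + 4) ^ 2 = l ^ 2 + 8 * l + 16 := by ring
  have h7 : (l + 4) * (l + 3) = l ^ 2 + 7 * l + 12 := by ring
  rw [h6] at hcard
  rw [h7]
  omega

end Pool.Agent.SC4
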