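import Mathlib
import Pool.Agent.Work.MP_2d1b31_co.Defs

set_option autoImplicit false

/-
MODULE Six (size M). `k = 6`. For every `v` the number `a(v) = |N(v) ∩ D(v)|` (`D = far G`) is even:
for `u ∈ N(v)` not in `D(v)` the unique common neighbour `p(u)` of `u` and `v` lies in `N(v)`, is not
in `D(v)` (`u` is a common neighbour of `p(u)` and `v`), `p(u) ≠ u`, `p(p(u)) = u`: a fixed point free
involution, so `|N(v)| - a(v)` is even, and `|N(v)| = 6`. Also `a(v) ≤ 2`. So `a(v) ∈ {0, 2}`, and
`sum a(v) = 6` means that `X = {v : a(v) = 2}` has exactly three elements. If `v ∈ X` then both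
`D`-neighbours `u` of `v` are `G`-neighbours, and `v ∈ N(u) ∩ D(u)`, so `a(u) > 0`, `u ∈ X`. So for
`v ∈ X` with `D(v) = {u, w}`: `X = {v, u, w}`, and `D(u) ⊆ X - u = {v, w}` gives `u ~_D w`, so also
`u ~_G w`. Then `w` is a common `G`-neighbour of `u` and `v`, although `u ∈ D(v)`: contradiction.
-/

namespace Pool.Agent.SC4

private theorem six_even {V : Type*} [Fintype V] [DecidableEq V] (G : SimpleGraph V)
    [DecidableRel G.Adj] [DecidableRel (far G).Adj] (hG : C4Free G) (v : V) :
    Even (G.neighborFinset v \ (far G).neighborFinset v).card := by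
  classical
  set S := G.neighborFinset v \ (far G).neighborFinset v with hS
  have hmem : ∀ u, u ∈ S ↔ G.Adj v u ∧ ∃ w, G.Adj v w ∧ G.Adj u w := by
    intro u
    rw [hS, Finset.mem_sdiff, SimpleGraph.mem_neighborFinset, SimpleGraph.mem_neighborFinset]
    constructor
    · rintro ⟨h1, h2⟩
      refine ⟨h1, ?_⟩
      by_contra hcon
      push Not at hcon
      exact h2 ⟨h1.ne, fun w hw => hcon w hw.1 hw.2⟩
    · rintro ⟨h1, w, h2, h3⟩
      exact ⟨h1, fun h => h.2 w ⟨h2, h3⟩⟩
  have hex : ∀ u ∈ S, ∃ w, G.Adj v w ∧ G.Adj u w := fun u hu => ((hmem u).1 hu).2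
  choose! p hp using hex
  have hpS : ∀ u ∈ S, p u ∈ S := fun u hu =>
    (hmem _).2 ⟨(hp u hu).1, u, ((hmem u).1 hu).1, (hp u hu).2.symm⟩
  have hsum : ∑ _x ∈ S, (1 : ZMod 2) = 0 := by
    refine Finset.sum_involution (fun u _ => p u) ?_ ?_ ?_ ?_
    · intro u hu
      decide
    · intro u hu _ h
      exact (hp u hu).2.ne h.symm
    · intro u hu
      exact hpS u hu
    · intro u hu
      have h1 := hp u hu
      have h2 := hp (p u) (hpS u hu)
      exact hG v (p u) (p (p u)) u h1.1.ne h2.1 h2.2 ((hmem u).1 hu).1 h1.2.symm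
  rw [Finset.sum_const, nsmul_eq_mul, mul_one] at hsum
  exact (ZMod.natCast_eq_zero_iff_even).1 hsum

theorem six {V : Type*} [Fintype V] [DecidableEq V] (G : SimpleGraph V) [DecidableRel G.Adj]
    [DecidableRel (far G).Adj] (hG : C4Free G) (hdeg : ∀ v, G.degree v = 6)
    (hfar : ∀ v, (far G).degree v = 2)
    (htr : ∑ v, (G.neighborFinset v ∩ (far G).neighborFinset v).card = 6) : False := by
  classical
  set a : V → ℕ := fun v => (G.neighborFinset v ∩ (far G).neighborFinset v).card with ha
  have ha_even : ∀ v, Even (a v) := by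
    intro v
    have h1 := six_even G hG v
    have h2 := Finset.card_inter_add_card_sdiff (G.neighborFinset v) ((far G).neighborFinset v)
    rw [SimpleGraph.card_neighborFinset_eq_degree, hdeg v] at h2
    have h3 : a v + (G.neighborFinset v \ (far G).neighborFinset v).card = 6 := h2
    have h4 : Even (a v + (G.neighborFinset v \ (far G).neighborFinset v).card) := by
      rw [h3]; decide
    exact (Nat.even_add.1 h4).2 h1
  have ha_le : ∀ v, a v ≤ 2 := by
    intro v
    have := Finset.card_le_card (Finset.inter_subset_right (s₁ := G.neighborFinset v)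
      (s₂ := (far G).neighborFinset v))
    rw [SimpleGraph.card_neighborFinset_eq_degree, hfar v] at this
    exact this
  have ha02 : ∀ v, a v ≠ 0 → a v = 2 := by
    intro v h
    obtain ⟨r, hr⟩ := ha_even v
    have := ha_le v
    omega
  -- members of X
  have hsub : ∀ v, a v = 2 → ∀ u, (far G).Adj v u → G.Adj v u := by
    intro v hv u hu
    have h1 : G.neighborFinset v ∩ (far G).neighborFinset v = (far G).neighborFinset v := by
      apply Finset.eq_of_subset_of_card_le Finset.inter_subset_right
      rw [SimpleGraph.card_neighborFinset_eq_degree, hfar v]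
      exact hv.ge
    have h2 : u ∈ (far G).neighborFinset v := by
      rw [SimpleGraph.mem_neighborFinset]; exact hu
    rw [← h1, Finset.mem_inter, SimpleGraph.mem_neighborFinset] at h2
    exact h2.1
  have hclosed : ∀ v, a v = 2 → ∀ u, (far G).Adj v u → a u = 2 := by
    intro v hv u hu
    apply ha02
    have h1 : v ∈ G.neighborFinset u ∩ (far G).neighborFinset u := by
      rw [Finset.mem_inter, SimpleGraph.mem_neighborFinset, SimpleGraph.mem_neighborFinset]
      exact ⟨(hsub v hv u hu).symm, hu.symm⟩
    exact (Finset.card_pos.2 ⟨v, h1⟩).ne'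
  set X : Finset V := Finset.univ.filter fun v => a v = 2 with hX
  have hXcard : X.card = 3 := by
    have h1 : ∑ v, a v = ∑ v, if a v = 2 then 2 else 0 := by
      refine Finset.sum_congr rfl fun v _ => ?_
      split_ifs with h
      · exact h
      · by_contra h0
        exact h (ha02 v h0)
    have h2 : ∑ v, a v = 6 := htr
    rw [h1, ← Finset.sum_filter, Finset.sum_const, smul_eq_mul] at h2
    have : X.card * 2 = 6 := h2
    omega
  obtain ⟨v, hvX⟩ : X.Nonempty := by
    rw [← Finset.card_pos, hXcard]; norm_num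
  have hv : a v = 2 := by rw [hX, Finset.mem_filter] at hvX; exact hvX.2
  have hDcard : ((far G).neighborFinset v).card = 2 := by
    rw [SimpleGraph.card_neighborFinset_eq_degree, hfar v]
  obtain ⟨u, w, huw, hD⟩ := Finset.card_eq_two.1 hDcard
  have hvu : (far G).Adj v u := by
    rw [← SimpleGraph.mem_neighborFinset, hD]; simp
  have hvw : (far G).Adj v w := by
    rw [← SimpleGraph.mem_neighborFinset, hD]; simp
  have hau := hclosed v hv u hvu
  have haw := hclosed v hv w hvw
  have hXeq : ({v, u, w} : Finset V) = X := by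
    apply Finset.eq_of_subset_of_card_le
    · intro y hy
      rw [hX, Finset.mem_filter]
      simp only [Finset.mem_insert, Finset.mem_singleton] at hy
      rcases hy with rfl | rfl | rfl
      · exact ⟨Finset.mem_univ _, hv⟩
      · exact ⟨Finset.mem_univ _, hau⟩
      · exact ⟨Finset.mem_univ _, haw⟩
    · rw [hXcard, Finset.card_eq_three.2 ⟨v, u, w, hvu.ne, hvw.ne, huw, rfl⟩]
  have hDu : (far G).neighborFinset u ⊆ {v, w} := by
    intro y hy
    rw [SimpleGraph.mem_neighborFinset] at hy
    have h1 : y ∈ X := by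
      rw [hX, Finset.mem_filter]; exact ⟨Finset.mem_univ _, hclosed u hau y hy⟩
    rw [← hXeq] at h1
    simp only [Finset.mem_insert, Finset.mem_singleton] at h1 ⊢
    rcases h1 with h | h | h
    · exact Or.inl h
    · exact absurd h.symm hy.ne
    · exact Or.inr h
  have hDu' : (far G).neighborFinset u = {v, w} := by
    apply Finset.eq_of_subset_of_card_le hDu
    rw [SimpleGraph.card_neighborFinset_eq_degree, hfar u]
    exact Finset.card_le_two
  have huw' : (far G).Adj u w := by
    rw [← SimpleGraph.mem_neighborFinset, hDu']; simp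
  have h1 : G.Adj u w := hsub u hau w huw'
  have h2 : G.Adj v w := hsub v hv w hvw
  exact hvu.2 w ⟨h2, h1⟩

end Pool.Agent.SC4
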