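import Mathlib

set_option autoImplicit false

/-
MODULE SpecD (size M-L). Eigenvalues of a 2-regular graph are `ζ + ζ⁻¹`, `ζ` a root of unity
(Kronecker). `H` a finite graph with all degrees 2, `θ` a real eigenvalue of its adjacency matrix.
Proof. Let `χ` be the characteristic polynomial of `H.adjMatrix ℤ` (monic, integer coefficients).
(a) Every complex root `τ` of `χ` is an eigenvalue of the symmetric real matrix, so it is real (as a
complex number), and `|τ| ≤ 2`: if `H x = τ x` and `|x v|` is maximal then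
`|τ| |x v| ≤ sum over the two neighbours ≤ 2 |x v|`.
(b) Take a root `ζ ∈ ℂ` of `X² - θ X + 1` (`ζ ≠ 0`, `θ = ζ + ζ⁻¹`). `θ` is integral over ℤ, hence so
is `ζ`. Let `K = ℚ⟮ζ⟯` (a number field, `θ ∈ K`). For every embedding `φ : K → ℂ`, `φ θ` is again a
root of `χ`, hence real with `|φ θ| ≤ 2`, and `φ ζ` is a root of `X² - φ(θ) X + 1`, so `‖φ ζ‖ = 1`
(a real quadratic with discriminant ≤ 0 and constant term 1: if `z² - τ z + 1 = 0`, `τ` real with
`|τ| ≤ 2`, then `|z| = 1`: for non real `z` the roots are `z, conj z` with product 1; for real `z`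
`τ = z + 1/z` forces `z = ±1`).
(c) Kronecker: `NumberField.Embeddings.pow_eq_one_of_norm_eq_one` gives `ζ^n = 1`, `n > 0`.
-/

namespace Pool.Agent.SC4

/-- A complex number with `z + 1/z` real of absolute value at most 2 has modulus 1. -/
private theorem norm_one_of_sum (z τ : ℂ) (hz : z ≠ 0) (h : z + z⁻¹ = τ)
    (him : τ.im = 0) (hn : ‖τ‖ ≤ 2) : ‖z‖ = 1 := by
  have hns : 0 < Complex.normSq z := Complex.normSq_pos.mpr hz
  have him' : z.im - z.im / Complex.normSq z = 0 := by
    have := congrArg Complex.im h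
    rw [him, Complex.add_im, Complex.inv_im] at this
    rw [neg_div] at this
    linarith
  have hre : z.re + z.re / Complex.normSq z = τ.re := by
    have := congrArg Complex.re h
    rwa [Complex.add_re, Complex.inv_re] at this
  have hsq : Complex.normSq z = 1 := by
    by_cases hb : z.im = 0
    · have h1 : Complex.normSq z = z.re * z.re := by
        rw [Complex.normSq_apply, hb]; ring
      have hre0 : z.re ≠ 0 := by
        intro h0
        rw [h1, h0] at hns
        simp at hns
      have h2 : |τ.re| ≤ 2 := (Complex.abs_re_le_norm τ).trans hn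
      have h3 : τ.re = z.re + z.re⁻¹ := by
        rw [← hre, h1]
        field_simp
      have h4 : τ.re ^ 2 ≤ 4 := by
        have := abs_le.mp h2
        nlinarith [this.1, this.2]
      have h5 : (z.re - z.re⁻¹) ^ 2 ≤ 0 := by
        have h6 : (z.re - z.re⁻¹) ^ 2 = (z.re + z.re⁻¹) ^ 2 - 4 * (z.re * z.re⁻¹) := by ring
        rw [h6, mul_inv_cancel₀ hre0, ← h3]
        linarith
      have h6 : z.re - z.re⁻¹ = 0 := by
        have := le_antisymm h5 (sq_nonneg _)
        exact pow_eq_zero_iff (two_ne_zero) |>.mp this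
      have h7 : z.re = z.re⁻¹ := by linarith
      rw [h1]
      calc z.re * z.re = z.re * z.re⁻¹ := by rw [← h7]
        _ = 1 := mul_inv_cancel₀ hre0
    · have h1 : z.im * (1 - 1 / Complex.normSq z) = 0 := by
        rw [← him']; ring
      have h2 : 1 - 1 / Complex.normSq z = 0 := by
        rcases mul_eq_zero.mp h1 with h | h
        · exact absurd h hb
        · exact h
      field_simp at h2
      linarith
  have h8 : ‖z‖ ^ 2 = 1 := by
    rw [← Complex.normSq_eq_norm_sq]; exact hsq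
  have h9 : 0 ≤ ‖z‖ := norm_nonneg z
  nlinarith [h8, h9]

/-- Complex eigenvalues of the adjacency matrix of a 2-regular graph are real and at most 2. -/
private theorem eig_real {V : Type*} [Fintype V] [DecidableEq V] (H : SimpleGraph V)
    [DecidableRel H.Adj] (hdeg : ∀ v, H.degree v = 2) (τ : ℂ) (y : V → ℂ) (hy : y ≠ 0)
    (h : (H.adjMatrix ℂ).mulVec y = τ • y) : τ.im = 0 ∧ ‖τ‖ ≤ 2 := by
  constructor
  · -- the number `q = sum conj(y v) (H y) v` is real
    have hq : ∑ v, (starRingEnd ℂ) (y v) * (H.adjMatrix ℂ).mulVec y v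
        = τ * ∑ v, (Complex.normSq (y v) : ℂ) := by
      rw [Finset.mul_sum]
      refine Finset.sum_congr rfl fun v _ => ?_
      rw [h, Pi.smul_apply, smul_eq_mul, Complex.normSq_eq_conj_mul_self]
      ring
    have hqr : (starRingEnd ℂ) (∑ v, (starRingEnd ℂ) (y v) * (H.adjMatrix ℂ).mulVec y v)
        = ∑ v, (starRingEnd ℂ) (y v) * (H.adjMatrix ℂ).mulVec y v := by
      have e1 : ∀ v, (starRingEnd ℂ) (y v) * (H.adjMatrix ℂ).mulVec y v
          = ∑ w, (starRingEnd ℂ) (y v) * (H.adjMatrix ℂ v w * y w) := by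
        intro v
        rw [Matrix.mulVec, dotProduct, Finset.mul_sum]
      simp only [e1]
      rw [map_sum]
      simp only [map_sum, map_mul, Complex.conj_conj]
      rw [Finset.sum_comm]
      refine Finset.sum_congr rfl fun v _ => Finset.sum_congr rfl fun w _ => ?_
      have e2 : (starRingEnd ℂ) (H.adjMatrix ℂ w v) = H.adjMatrix ℂ v w := by
        rw [SimpleGraph.adjMatrix_apply, SimpleGraph.adjMatrix_apply]
        by_cases hvw : H.Adj v w
        · rw [if_pos hvw, if_pos hvw.symm, map_one]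
        · rw [if_neg hvw, if_neg (fun h => hvw h.symm), map_zero]
      rw [e2]
      ring
    rw [hq] at hqr
    rw [map_mul] at hqr
    have hS : (∑ v, (Complex.normSq (y v) : ℂ)) = ((∑ v, Complex.normSq (y v) : ℝ) : ℂ) := by
      push_cast; rfl
    rw [hS, Complex.conj_ofReal] at hqr
    have hpos : 0 < ∑ v, Complex.normSq (y v) := by
      obtain ⟨v, hv⟩ := Function.ne_iff.mp hy
      exact Finset.sum_pos' (fun v _ => Complex.normSq_nonneg _)
        ⟨v, Finset.mem_univ _, Complex.normSq_pos.mpr hv⟩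
    have hne : ((∑ v, Complex.normSq (y v) : ℝ) : ℂ) ≠ 0 := by
      exact_mod_cast hpos.ne'
    have := mul_right_cancel₀ hne hqr
    exact Complex.conj_eq_iff_im.mp this
  · obtain ⟨u, hu⟩ := Function.ne_iff.mp hy
    obtain ⟨v, -, hv⟩ := Finset.exists_max_image Finset.univ (fun v => ‖y v‖) ⟨u, Finset.mem_univ _⟩
    have hvpos : 0 < ‖y v‖ := lt_of_lt_of_le (norm_pos_iff.mpr hu) (hv u (Finset.mem_univ _))
    have h1 : τ * y v = ∑ w ∈ H.neighborFinset v, y w := by
      have := congrFun h v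
      rw [SimpleGraph.adjMatrix_mulVec_apply, Pi.smul_apply, smul_eq_mul] at this
      exact this.symm
    have h2 : ‖τ‖ * ‖y v‖ ≤ 2 * ‖y v‖ := by
      rw [← norm_mul, h1]
      calc ‖∑ w ∈ H.neighborFinset v, y w‖ ≤ ∑ w ∈ H.neighborFinset v, ‖y w‖ := norm_sum_le _ _
        _ ≤ ∑ w ∈ H.neighborFinset v, ‖y v‖ := Finset.sum_le_sum fun w _ => hv w (Finset.mem_univ _)
        _ = 2 * ‖y v‖ := by
          rw [Finset.sum_const, SimpleGraph.card_neighborFinset_eq_degree, hdeg v]
          simp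
    exact le_of_mul_le_mul_right h2 hvpos

/-- The integral characteristic polynomial and complex eigenvalues. -/
private theorem root_iff {V : Type*} [Fintype V] [DecidableEq V] (H : SimpleGraph V)
    [DecidableRel H.Adj] (τ : ℂ) :
    Polynomial.aeval τ (H.adjMatrix ℤ).charpoly = 0 ↔
      ∃ y : V → ℂ, y ≠ 0 ∧ (H.adjMatrix ℂ).mulVec y = τ • y := by
  have hmap : (H.adjMatrix ℤ).map (algebraMap ℤ ℂ) = H.adjMatrix ℂ := by
    ext v w
    rw [Matrix.map_apply, SimpleGraph.adjMatrix_apply, SimpleGraph.adjMatrix_apply]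
    split_ifs <;> simp
  have h1 : Polynomial.aeval τ (H.adjMatrix ℤ).charpoly
      = (Matrix.scalar V τ - H.adjMatrix ℂ).det := by
    rw [← Matrix.eval_charpoly, ← hmap, Matrix.charpoly_map, Polynomial.eval_map_algebraMap]
  rw [h1, ← Matrix.exists_mulVec_eq_zero_iff]
  have h2 : ∀ y : V → ℂ, (Matrix.scalar V τ).mulVec y = τ • y := by
    intro y
    ext v
    simp [Matrix.scalar_apply, Matrix.mulVec_diagonal]
  constructor
  · rintro ⟨y, hy, h⟩
    refine ⟨y, hy, ?_⟩
    rw [Matrix.sub_mulVec, h2, sub_eq_zero] at h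
    exact h.symm
  · rintro ⟨y, hy, h⟩
    refine ⟨y, hy, ?_⟩
    rw [Matrix.sub_mulVec, h2, h, sub_self]

theorem spec_two {V : Type*} [Fintype V] [DecidableEq V] (H : SimpleGraph V) [DecidableRel H.Adj]
    (hdeg : ∀ v, H.degree v = 2) (θ : ℝ) (x : V → ℝ) (hx : x ≠ 0)
    (h : (H.adjMatrix ℝ).mulVec x = θ • x) :
    ∃ (ζ : ℂ) (n : ℕ), 0 < n ∧ ζ ^ n = 1 ∧ (θ : ℂ) = ζ + ζ⁻¹ := by
  -- `θ` is a root of the characteristic polynomial
  have hroot : Polynomial.aeval (θ : ℂ) (H.adjMatrix ℤ).charpoly = 0 := by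
    rw [root_iff]
    refine ⟨fun v => (x v : ℂ), ?_, ?_⟩
    · intro h0
      apply hx
      ext v
      have h1 : ((x v : ℝ) : ℂ) = 0 := congrFun h0 v
      exact Complex.ofReal_eq_zero.mp h1
    · ext v
      have h1 := congrFun h v
      rw [SimpleGraph.adjMatrix_mulVec_apply, Pi.smul_apply, smul_eq_mul] at h1 ⊢
      rw [← Complex.ofReal_mul, ← h1]
      push_cast
      rfl
  have hθint : IsIntegral ℤ (θ : ℂ) := ⟨(H.adjMatrix ℤ).charpoly, Matrix.charpoly_monic _, by
    rw [← Polynomial.aeval_def]; exact hroot⟩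
  -- the root `ζ`
  obtain ⟨ζ, hζ⟩ : ∃ ζ : ℂ, ζ ^ 2 - θ * ζ + 1 = 0 := by
    obtain ⟨s, hs⟩ := IsAlgClosed.exists_pow_nat_eq ((θ : ℂ) ^ 2 - 4) (n := 2) (by norm_num)
    refine ⟨(θ + s) / 2, ?_⟩
    have : s ^ 2 = (θ : ℂ) ^ 2 - 4 := hs
    linear_combination (1 / 4) * this
  have hζ0 : ζ ≠ 0 := by
    rintro rfl
    norm_num at hζ
  have hζθ : ζ + ζ⁻¹ = θ := by
    field_simp
    linear_combination hζ
  -- integrality of `ζ`
  have hζint : IsIntegral ℤ ζ := by
    have hA : IsIntegral (integralClosure ℤ ℂ) ζ := by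
      let t : integralClosure ℤ ℂ := ⟨(θ : ℂ), hθint⟩
      refine ⟨Polynomial.X ^ 2 - Polynomial.C t * Polynomial.X + 1, ?_, ?_⟩
      · monicity!
      · simp only [Polynomial.eval₂_add, Polynomial.eval₂_sub, Polynomial.eval₂_mul,
          Polynomial.eval₂_pow, Polynomial.eval₂_X, Polynomial.eval₂_C, Polynomial.eval₂_one]
        exact hζ
    exact isIntegral_trans ζ hA
  have hζQ : IsIntegral ℚ ζ := hζint.tower_top
  have : FiniteDimensional ℚ (IntermediateField.adjoin ℚ {ζ}) :=
    IntermediateField.adjoin.finiteDimensional hζQ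
  have : NumberField (IntermediateField.adjoin ℚ {ζ}) :=
    { to_charZero := inferInstance, to_finiteDimensional := inferInstance }
  let g : IntermediateField.adjoin ℚ {ζ} := IntermediateField.AdjoinSimple.gen ℚ ζ
  have hg : (g : ℂ) = ζ := IntermediateField.AdjoinSimple.coe_gen ℚ ζ
  have hgint : IsIntegral ℤ g := by
    rw [← isIntegral_algebraMap_iff (B := ℂ)
      (algebraMap (IntermediateField.adjoin ℚ {ζ}) ℂ).injective]
    have : algebraMap (IntermediateField.adjoin ℚ {ζ}) ℂ g = ζ := hg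
    rw [this]
    exact hζint
  have hg0 : g ≠ 0 := by
    intro h0
    apply hζ0
    rw [← hg, h0]
    rfl
  have hgroot : Polynomial.aeval (g + g⁻¹) (H.adjMatrix ℤ).charpoly = 0 := by
    apply (algebraMap (IntermediateField.adjoin ℚ {ζ}) ℂ).injective
    rw [map_zero, ← Polynomial.aeval_algebraMap_apply, map_add, map_inv₀]
    have : algebraMap (IntermediateField.adjoin ℚ {ζ}) ℂ g = ζ := hg
    rw [this, hζθ]
    exact hroot
  have hnorm : ∀ φ : IntermediateField.adjoin ℚ {ζ} →+* ℂ, ‖φ g‖ = 1 := by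
    intro φ
    have h1 : Polynomial.aeval (φ g + (φ g)⁻¹) (H.adjMatrix ℤ).charpoly = 0 := by
      have h2 := congrArg φ hgroot
      rw [map_zero, Polynomial.aeval_def, Polynomial.hom_eval₂, map_add, map_inv₀] at h2
      rw [Polynomial.aeval_def]
      have h3 : φ.comp (algebraMap ℤ (IntermediateField.adjoin ℚ {ζ})) = algebraMap ℤ ℂ :=
        RingHom.ext_int _ _
      rw [h3] at h2
      exact h2
    obtain ⟨y, hy, hyy⟩ := (root_iff H _).mp h1
    obtain ⟨him, hn⟩ := eig_real H hdeg _ y hy hyy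
    exact norm_one_of_sum (φ g) _ (by simpa using hg0) rfl him hn
  obtain ⟨n, hn, hn1⟩ := NumberField.Embeddings.pow_eq_one_of_norm_eq_one
    (IntermediateField.adjoin ℚ {ζ}) ℂ hgint hnorm
  refine ⟨ζ, n, hn, ?_, hζθ.symm⟩
  have := congrArg (algebraMap (IntermediateField.adjoin ℚ {ζ}) ℂ) hn1
  rw [map_pow, map_one] at this
  have h5 : algebraMap (IntermediateField.adjoin ℚ {ζ}) ℂ g = ζ := hg
  rw [h5] at this
  exact this

end Pool.Agent.SC4
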