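import Mathlib
import Pool.Agent.Work.MP_2d1b31_co.Defs
import Pool.Agent.Work.MP_2d1b31_co.Base
import Pool.Agent.Work.MP_2d1b31_co.Growth
import Pool.Agent.Work.MP_2d1b31_co.Reg
import Pool.Agent.Work.MP_2d1b31_co.MatId
import Pool.Agent.Work.MP_2d1b31_co.SpecD
import Pool.Agent.Work.MP_2d1b31_co.EigA
import Pool.Agent.Work.MP_2d1b31_co.Six
import Pool.Agent.Work.MP_2d1b31_co.NT
import Pool.Agent.Work.MP_2d1b31_co.PolySum
import Pool.Agent.Work.MP_2d1b31_co.Eig
import Pool.Agent.Work.MP_2d1b31_co.Arith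

set_option autoImplicit false

namespace Pool.Agent.SC4

open Polynomial

/-- The spectral part: `k ≥ 6` even. -/
theorem even_case {V : Type*} [Fintype V] [DecidableEq V] (G : SimpleGraph V) [DecidableRel G.Adj]
    (k : ℕ) (hk : 6 ≤ k) (hk2 : Even k) (hcard : Fintype.card V + k = k ^ 2 + 3) (hG : C4Free G)
    (hdeg : ∀ v, k ≤ G.degree v) : (∃ b : ℕ, k = (2 * b) ^ 2) ∨ k = 12 := by
  classical
  have hreg : ∀ v, G.degree v = k := fun v => regular G k (by omega) hcard hG hdeg v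
  have hfar : ∀ v, (far G).degree v = 2 := fun v => far_degree G k (by omega) hcard hG hdeg v
  have hcardpos : 0 < Fintype.card V := by
    have : k ≤ k ^ 2 := by nlinarith
    omega
  have : Nonempty V := Fintype.card_pos_iff.1 hcardpos
  -- the deflated matrix over the rationals
  set c : ℚ := (k : ℚ) / Fintype.card V with hc
  set M : Matrix V V ℚ := G.adjMatrix ℚ - c • J V ℚ with hM
  have hMsymm : M.IsSymm := by
    ext i j
    simp [hM, J, SimpleGraph.adjMatrix_apply, G.adj_comm]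
  have hMmap : M.map (algebraMap ℚ ℝ) = G.adjMatrix ℝ - ((k : ℝ) / Fintype.card V) • J V ℝ := by
    ext i j
    simp only [hM, hc, J, SimpleGraph.adjMatrix_apply, Matrix.map_apply, Matrix.sub_apply,
      Matrix.smul_apply, Matrix.of_apply, smul_eq_mul, mul_one, map_sub, map_div₀, map_natCast]
    split_ifs <;> simp
  obtain ⟨hsplit, hsum, hcube, heig⟩ := eig_all M hMsymm
  rw [hMmap] at hsum hcube heig
  rw [trace_defl G k hreg] at hsum
  rw [trace_defl_cube G k hreg] at hcube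
  -- the integer b
  obtain ⟨b, hb⟩ : ∃ b : ℕ, ∀ (b' : ℕ) (t : ℤ), |t| ≤ 2 → (b' : ℤ) ^ 2 = (k : ℤ) - 1 - t → b' = b := by
    by_cases h : ∃ (b : ℕ) (t : ℤ), |t| ≤ 2 ∧ (b : ℤ) ^ 2 = (k : ℤ) - 1 - t
    · obtain ⟨b, t, ht, hb⟩ := h
      exact ⟨b, fun b' t' ht' hb' => uniq k hk b' b t' t ht' ht hb' hb⟩
    · exact ⟨0, fun b' t' ht' hb' => absurd ⟨b', t', ht', hb'⟩ h⟩
  have hxodd : Odd ((k : ℤ) - 1) := by
    obtain ⟨j, hj⟩ := hk2
    exact ⟨(j : ℤ) - 1, by push_cast [hj]; ring⟩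
  have key : ∀ α : ℝ, (∃ x : V → ℝ, x ≠ 0 ∧
      (G.adjMatrix ℝ - ((k : ℝ) / Fintype.card V) • J V ℝ).mulVec x = α • x) →
      α ∈ Algebra.adjoin ℚ {α ^ 2} → α ≠ 0 →
      ∃ t q : ℤ, |t| ≤ 2 ∧ α = q ∧ q ^ 2 = (k : ℤ) - 1 - t := by
    rintro α ⟨x, hx, hα⟩ hmem hne
    rcases eig_defl G k hG hreg α x hx hα with h0 | h1
    · exact absurd h0 hne
    · obtain ⟨ζ, n, hn, hζ, hθ⟩ := spec_two (far G) hfar ((k : ℝ) - 1 - α ^ 2) x hx h1
      exact nt ((k : ℤ) - 1) hxodd (by omega) α ((k : ℝ) - 1 - α ^ 2) (by push_cast; ring) ζ n hn hζ hθ hmem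
  have hroot : ∀ α ∈ (M.charpoly.map (algebraMap ℚ ℝ)).roots, α ∈ Algebra.adjoin ℚ {α ^ 2} →
      α = 0 ∨ α = (b : ℤ) ∨ α = -((b : ℤ) : ℝ) := by
    intro α hα hmem
    by_cases hne : α = 0
    · exact Or.inl hne
    · obtain ⟨t, q, ht, hq, hq2⟩ := key α (heig α hα) hmem hne
      have h1 : q.natAbs = b := hb q.natAbs t ht (by rw [Int.natAbs_sq]; exact hq2)
      right
      rcases Int.natAbs_eq q with h2 | h2
      · left; rw [hq, h2, h1]
      · right; rw [hq, h2, h1]; push_cast; ring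
  obtain ⟨s, hs1, hs2⟩ := poly_sum M.charpoly M.charpoly_monic hsplit (b : ℤ) hroot
  rw [hsum] at hs1
  rw [hcube] at hs2
  have hs : -(k : ℤ) = (b : ℤ) * s := by exact_mod_cast hs1
  -- b is a genuine square root
  have hbne : b ≠ 0 := by
    rintro rfl
    simp at hs
    omega
  have hex : ∃ t : ℤ, |t| ≤ 2 ∧ (b : ℤ) ^ 2 = (k : ℤ) - 1 - t := by
    by_contra hno
    have hroot0 : ∀ α ∈ (M.charpoly.map (algebraMap ℚ ℝ)).roots, α ∈ Algebra.adjoin ℚ {α ^ 2} →
        α = 0 ∨ α = ((0 : ℤ) : ℝ) ∨ α = -((0 : ℤ) : ℝ) := by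
      intro α hα hmem
      by_cases hne : α = 0
      · exact Or.inl hne
      · obtain ⟨t, q, ht, hq, hq2⟩ := key α (heig α hα) hmem hne
        have h1 : q.natAbs = b := hb q.natAbs t ht (by rw [Int.natAbs_sq]; exact hq2)
        exact absurd ⟨t, ht, by rw [← h1, Int.natAbs_sq]; exact hq2⟩ hno
    obtain ⟨s', hs1', -⟩ := poly_sum M.charpoly M.charpoly_monic hsplit 0 hroot0
    rw [hsum] at hs1'
    have : (k : ℝ) = 0 := by
      have h3 : -(k : ℝ) = 0 := by simpa using hs1'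
      linarith
    have : k = 0 := by exact_mod_cast this
    omega
  obtain ⟨t, ht, hbt⟩ := hex
  rcases arith k hk hk2 b s t ht hbt hs with h | h | ⟨h6, hb2⟩
  · exact Or.inl h
  · exact Or.inr h
  · exfalso
    subst h6
    subst hb2
    have hs3 : s = -3 := by
      push_cast at hs
      omega
    rw [trace_cube G 6 hG hreg, hs3] at hs2
    have hcardV : Fintype.card V = 33 := by omega
    rw [hcardV] at hs2
    have h4 : (∑ v, ((G.neighborFinset v ∩ (far G).neighborFinset v).card : ℝ)) = 6 := by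
      push_cast at hs2
      norm_num at hs2
      linarith
    have h5 : ∑ v, (G.neighborFinset v ∩ (far G).neighborFinset v).card = 6 := by
      exact_mod_cast h4
    exact six G hG hreg hfar h5

/-- A graph on `k² - k + 3` vertices without 4-cycle and with minimum degree at least `k ≥ 4` exists
only if `k` is an even perfect square or `k = 12`. -/
theorem no_graph {V : Type*} [Fintype V] [DecidableEq V] (G : SimpleGraph V) [DecidableRel G.Adj]
    (k : ℕ) (hk : 4 ≤ k) (hcard : Fintype.card V + k = k ^ 2 + 3) (hG : C4Free G)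
    (hdeg : ∀ v, k ≤ G.degree v) : (∃ b : ℕ, k = (2 * b) ^ 2) ∨ k = 12 := by
  classical
  rcases Nat.even_or_odd k with hev | hodd
  · by_cases h6 : 6 ≤ k
    · exact even_case G k h6 hev hcard hG hdeg
    · left
      have : k = 4 := by
        obtain ⟨j, hj⟩ := hev
        omega
      exact ⟨1, by rw [this]; norm_num⟩
  · exfalso
    have hreg : ∀ v, G.degree v = k := fun v => regular G k hk hcard hG hdeg v
    have h1 := G.sum_degrees_eq_twice_card_edges
    simp only [hreg, Finset.sum_const, Finset.card_univ, smul_eq_mul] at h1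
    have h2 : Even (Fintype.card V * k) := ⟨G.edgeFinset.card, by omega⟩
    rw [Nat.even_mul] at h2
    rcases h2 with h2 | h2
    · have h3 : Even (Fintype.card V + k) ↔ (Even (Fintype.card V) ↔ Even k) := Nat.even_add
      have h4 : ¬ Even k := Nat.not_even_iff_odd.2 hodd
      have h5 : ¬ Even (Fintype.card V + k) := by
        rw [h3]; intro h; exact h4 (h.1 h2)
      apply h5
      rw [hcard, Nat.even_add]
      constructor
      · intro h; exact absurd ((Nat.even_pow.1 h).1) h4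
      · intro h; exact absurd h (by decide)
    · exact (Nat.not_even_iff_odd.2 hodd) h2

/-- `R(C₄, K_{1,m²+2}) ≤ m² + m + 3` unless `m + 1` is an even square or `m = 11`. -/
theorem two_above (m : ℕ) (hm : 3 ≤ m) (h11 : m ≠ 11) (hsq : ∀ b : ℕ, m + 1 ≠ (2 * b) ^ 2) :
    RamseyLE (m ^ 2 + 2) (m ^ 2 + m + 3) := by
  classical
  intro G
  by_contra hcon
  rw [not_or] at hcon
  obtain ⟨h1, h2⟩ := hcon
  have hG : C4Free G := by
    by_contra h
    exact h1 ((c4_iff G).2 h)
  have hdeg : ∀ v, m + 1 ≤ G.degree v := by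
    intro v
    by_contra h
    exact h2 ((star_iff G (m ^ 2 + 2)).2 ⟨v, by rw [Fintype.card_fin]; omega⟩)
  rcases no_graph G (m + 1) (by omega) (by rw [Fintype.card_fin]; ring) hG hdeg with ⟨b, hb⟩ | h12
  · exact hsq b hb
  · omega

end Pool.Agent.SC4
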