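import Mathlib

set_option autoImplicit false

/-
MODULE Arith (size S). (1) `b² = k - 1 - t`, `|t| ≤ 2`, `b ∣ k`, so `b ∣ 1 + t` (in ℤ):
 `t = -1`: `k = b²`, `k` even, `b = 2c`. `t = 2`: `b ∣ 3`, `b² = k - 3 ≥ 3`, so `b = 3`, `k = 12`.
 `t = 1`: `b ∣ 2`, `b² = k - 2 ≥ 4`: `b = 2`, `k = 6`. `t = 0`: `b ∣ 1`, `b² = k - 1 ≥ 5`: impossible.
 `t = -2`: `b ∣ 1`, `b² = k + 1`: impossible.
(2) Two squares in `[k-3, k+1]`, `k ≥ 6`, are equal: `b ≥ 2` and `(b+1)² ≥ b² + 5`.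
-/

namespace Pool.Agent.SC4

theorem arith (k : ℕ) (hk : 6 ≤ k) (hk2 : Even k) (b : ℕ) (s t : ℤ) (ht : |t| ≤ 2)
    (hb : (b : ℤ) ^ 2 = (k : ℤ) - 1 - t) (hs : -(k : ℤ) = (b : ℤ) * s) :
    (∃ c : ℕ, k = (2 * c) ^ 2) ∨ k = 12 ∨ (k = 6 ∧ b = 2) := by
  have hdiv : (b : ℤ) ∣ 1 + t := ⟨-s - b, by linear_combination hb - hs⟩
  have hb1 : 2 ≤ b := by
    by_contra h
    have : b = 0 ∨ b = 1 := by omega
    rcases this with rfl | rfl
    · have := (abs_le.1 ht); push_cast at hb; omega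
    · have := (abs_le.1 ht); push_cast at hb; omega
  obtain ⟨h1, h2⟩ := abs_le.1 ht
  have h3 : t = -2 ∨ t = -1 ∨ t = 0 ∨ t = 1 ∨ t = 2 := by omega
  rcases h3 with rfl | rfl | rfl | rfl | rfl
  · exfalso
    have h4 : (b : ℤ) ∣ 1 := by
      have := (dvd_neg (a := (b : ℤ)) (b := 1)).1 (by simpa using hdiv)
      exact this
    have := Int.le_of_dvd one_pos h4
    omega
  · left
    have hkb : k = b ^ 2 := by
      have : (k : ℤ) = (b : ℤ) ^ 2 := by linarith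
      exact_mod_cast this
    have hbe : Even b := by
      rw [hkb] at hk2
      exact (Nat.even_pow.1 hk2).1
    obtain ⟨c, hc⟩ := hbe
    exact ⟨c, by rw [hkb, hc]; ring⟩
  · exfalso
    have := Int.le_of_dvd one_pos (by simpa using hdiv)
    omega
  · right; right
    have h4 : (b : ℤ) ≤ 2 := Int.le_of_dvd (by norm_num) (by simpa using hdiv)
    have h5 : b = 2 := by omega
    subst h5
    push_cast at hb
    exact ⟨by omega, rfl⟩
  · right; left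
    have h4 : (b : ℤ) ∣ 3 := by simpa using hdiv
    have h5 : (b : ℤ) ≤ 3 := Int.le_of_dvd (by norm_num) h4
    have h6 : b = 2 ∨ b = 3 := by omega
    rcases h6 with rfl | rfl
    · exfalso; norm_num at h4
    · push_cast at hb; omega

theorem uniq (k : ℕ) (hk : 6 ≤ k) (b b' : ℕ) (t t' : ℤ) (ht : |t| ≤ 2) (ht' : |t'| ≤ 2)
    (hb : (b : ℤ) ^ 2 = (k : ℤ) - 1 - t) (hb' : (b' : ℤ) ^ 2 = (k : ℤ) - 1 - t') : b = b' := by
  obtain ⟨h1, h2⟩ := abs_le.1 ht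
  obtain ⟨h3, h4⟩ := abs_le.1 ht'
  have aux : ∀ c : ℕ, (3 : ℤ) ≤ (c : ℤ) ^ 2 → 2 ≤ c := by
    intro c hc
    by_contra h
    have : c = 0 ∨ c = 1 := by omega
    rcases this with rfl | rfl <;> norm_num at hc
  have hb2 : 2 ≤ b := aux b (by omega)
  have hb2' : 2 ≤ b' := aux b' (by omega)
  rcases lt_trichotomy b b' with h | h | h
  · exfalso
    have h5 : (b : ℤ) + 1 ≤ b' := by exact_mod_cast h
    nlinarith
  · exact h
  · exfalso
    have h5 : (b' : ℤ) + 1 ≤ b := by exact_mod_cast h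
    nlinarith

end Pool.Agent.SC4
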